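import Pool.Agent.H70.LIM.Glue
import Pool.Agent.H10.CM.All

/-!
From packages over `E(x)` to horizontal pairs over Laurent series.
-/

set_option autoImplicit false

namespace Pool.Agent.H70.LIM.Pk

open Finset Polynomial Matrix Pool.CM Pool.H93.Cube

section Ts

variable {X : Idx} {E : Type} [Field E] {A : PF X E}

/-- the elements of some degree at the place `i`. -/
def Ts (hA : A.Ax) (i : X.I) : Subring E where
  carrier := {x | ∃ d, x ∈ A.t i d}
  mul_mem' := by
    rintro x y ⟨d, hd⟩ ⟨e, he⟩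
    exact ⟨d + e, (Pool.CM.All.tcl X E A hA i).2.2.2.1 d e x y hd he⟩
  one_mem' := ⟨0, (Pool.CM.All.tcl X E A hA i).2.2.2.2.2.2.2 0 1 (hA.pol_one i)⟩
  add_mem' := by
    rintro x y ⟨d, hd⟩ ⟨e, he⟩
    exact ⟨d + e, (Pool.CM.All.tcl X E A hA i).2.2.1 d e x y hd he⟩
  zero_mem' := ⟨0, (Pool.CM.All.tcl X E A hA i).2.2.2.2.2.2.2 0 0 (A.pol i 0).zero_mem⟩
  neg_mem' := by
    rintro x ⟨d, hd⟩
    exact ⟨d, (Pool.CM.All.tcl X E A hA i).2.2.2.2.1 d x hd⟩

theorem mem_Ts (hA : A.Ax) {i : X.I} {d : ℕ} {x : E} (h : x ∈ A.t i d) : x ∈ Ts hA i := ⟨d, h⟩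

theorem Ts_O (hA : A.Ax) {i : X.I} {x : E} (h : x ∈ Ts hA i) : x ∈ A.O i := by
  obtain ⟨d, hd⟩ := h
  exact (Pool.CM.All.tcl X E A hA i).1 d x hd

theorem Ts_phi (hA : A.Ax) {i : X.I} {x : E} (h : x ∈ Ts hA i) : A.phi i x ∈ Ts hA i := by
  obtain ⟨d, hd⟩ := h
  exact ⟨_, (Pool.CM.All.tcl X E A hA i).2.2.2.2.2.1 d x hd⟩

theorem Ts_D (hA : A.Ax) {i : X.I} (j : A.J) {x : E} (h : x ∈ Ts hA i) : A.D j x ∈ Ts hA i := by
  obtain ⟨d, hd⟩ := h
  exact ⟨_, (Pool.CM.All.tcl X E A hA i).2.2.2.2.2.2.1 d j x hd⟩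

theorem Ts_fixed (hA : A.Ax) (x : E) : X.Ev fun i => x ∈ Ts hA i := by
  obtain ⟨d, hd⟩ := Pool.CM.All.tfx X E A hA x
  exact hd.mono fun i hi => ⟨d, hi⟩

theorem Ts_fixed_mat (hA : A.Ax) {m m' : Type} [Finite m] [Finite m'] (G : Matrix m m' E) :
    X.Ev fun i => ∀ a b, G a b ∈ Ts hA i :=
  Idx.Ev.all fun a => Idx.Ev.all fun b => Ts_fixed hA (G a b)

end Ts

section ex

variable {X : Idx} {E : Type} [Field E] {A : PF X E}

theorem ex_D (x : RatFunc E) : ex E (A.ext.D none x) = Pool.H93.Cube.nab (ex E x) := by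
  ext k
  rw [(Pool.CM.All.xde X E A x k).1, Pool.H93.Cube.nab_coeff]

theorem ex_nabF (A : PF X E) (x : RatFunc E) : ex E (nabF E x) = Pool.H93.Cube.nab (ex E x) := by
  ext k
  have := (Pool.CM.All.xde X E A x k).1
  rw [Pool.H93.Cube.nab_coeff, ← this]
  rfl

theorem ex_Dj (j : A.J) (x : RatFunc E) :
    ex E (A.ext.D (some j) x) = cmap (A.D j : E →+ E) (ex E x) := by
  ext k
  rw [(Pool.CM.All.xde X E A x k).2 j, cmap_coeff]
  rfl

theorem ex_phi (i : X.I) (x : RatFunc E) :
    ex E (A.ext.phi i x) = phiL (A.phi i) (X.p i) (X.hp i).ne_zero (ex E x) := by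
  ext k
  rw [phiL_coeff]
  split_ifs with h
  · exact (Pool.CM.All.xph X E A i x k).1 h
  · exact (Pool.CM.All.xph X E A i x k).2 h

theorem ex_nat (n : ℕ) : ex E (n : RatFunc E) = HahnSeries.C (n : E) := by
  rw [map_natCast, map_natCast]

theorem ex_IL (hA : A.Ax) {i : X.I} {x : RatFunc E}
    (h : x ∈ Ts (Pool.CM.All.ext X E A hA) i) : ex E x ∈ IL (A.O i) := by
  obtain ⟨d, hd⟩ := h
  exact (Pool.CM.All.xt X E A hA i d x hd).1

theorem ex_pL (hA : A.Ax) {i : X.I} {x : RatFunc E}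
    (h : x ∈ Ts (Pool.CM.All.ext X E A hA) i) (M : ℕ) :
    x ∈ pI (A.ext.O i) (X.p i) M ↔ ex E x ∈ pL (A.O i) (X.p i) M := by
  obtain ⟨d, hd⟩ := h
  exact Pool.CM.All.xcg X E A hA i d x M hd

end ex

section pkg

variable {X : Idx} {E : Type} [Field E] [CharZero E] {A : PF X E} {m : Type} [Fintype m]
  [DecidableEq m]

omit [CharZero E] in
/-- a pair of Frobenius matrices at one place gives a horizontal pair. -/
theorem hp_of_frob (hA : A.Ax) {G : A.ext.J → Matrix m m (RatFunc E)} {chi : m → RatFunc E} {e : m}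
    {n : ℕ} {i : X.I} {M C : ℕ} {Phi Phi' : Matrix m m (RatFunc E)}
    (hG : ∀ a b, G none a b ∈ Ts (Pool.CM.All.ext X E A hA) i)
    (h : Pool.H93.Cube.Frob A.ext G chi e n i M C Phi Phi') :
    HP (A.O i) (X.p i) (X.hp i).ne_zero (A.phi i) M n ((G none).map (ex E)) (Phi.map (ex E))
      (Phi'.transpose.map (ex E)) := by
  have hP : ∀ a b, Phi a b ∈ Ts (Pool.CM.All.ext X E A hA) i := fun a b => mem_Ts _ (h.t1 a b)
  have hP' : ∀ a b, Phi' a b ∈ Ts (Pool.CM.All.ext X E A hA) i := fun a b => mem_Ts _ (h.t2 a b)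
  refine ⟨fun a b => ex_IL hA (hP a b), fun a b => ex_IL hA (hP' b a), ?_, ?_⟩
  · intro a b
    have h1 := h.h1 none a b
    have e1 : ((Phi.map (ex E)).map Pool.H93.Cube.nab + (G none).map (ex E) * Phi.map (ex E)) a b -
        ((HahnSeries.C ((X.p i : ℕ) : E) : LaurentSeries E) •
          (Phi.map (ex E) * ((G none).map (ex E)).map (phiL (A.phi i) (X.p i) (X.hp i).ne_zero))) a b
        = ex E ((Phi.map (A.ext.D none) + G none * Phi) a b -
          (((X.p i : ℕ) : RatFunc E) • (Phi * (G none).map (A.ext.phi i))) a b) := by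
      simp only [Matrix.add_apply, Matrix.smul_apply, Matrix.map_apply, Matrix.mul_apply, map_sub,
        map_add, map_sum, map_mul, smul_eq_mul, ex_nat, ex_D, ex_phi]
    rw [e1, ← ex_pL hA]
    · exact h1
    · refine Subring.sub_mem _ ?_ ?_
      · rw [Matrix.add_apply, Matrix.map_apply, Matrix.mul_apply]
        exact Subring.add_mem _ (Ts_D _ none (hP a b))
          (Subring.sum_mem _ fun c _ => Subring.mul_mem _ (hG a c) (hP c b))
      · rw [Matrix.smul_apply, smul_eq_mul, Matrix.mul_apply]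
        exact Subring.mul_mem _ (natCast_mem _ _)
          (Subring.sum_mem _ fun c _ => Subring.mul_mem _ (hP a c) (Ts_phi _ (hG c b)))
  · intro a b
    have h1 := h.m2 a b
    have e1 : (Phi.map (ex E) * Phi'.transpose.map (ex E)) a b -
        ((HahnSeries.C (((X.p i : ℕ) : E) ^ n) : LaurentSeries E) •
          (1 : Matrix m m (LaurentSeries E))) a b
        = ex E ((Phi * Phi'.transpose) a b - (((X.p i : ℕ) : RatFunc E) ^ n •
          (1 : Matrix m m (RatFunc E))) a b) := by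
      simp only [Matrix.smul_apply, Matrix.map_apply, Matrix.mul_apply, map_sub,
        map_sum, map_mul, smul_eq_mul, map_pow, ex_nat, Matrix.one_apply]
      congr 2
      split_ifs <;> simp
    rw [e1, ← ex_pL hA]
    · exact h1
    · refine Subring.sub_mem _ ?_ ?_
      · rw [Matrix.mul_apply]
        exact Subring.sum_mem _ fun c _ => Subring.mul_mem _ (hP a c) (hP' b c)
      · rw [Matrix.smul_apply, smul_eq_mul, Matrix.one_apply]
        refine Subring.mul_mem _ (Subring.pow_mem _ (natCast_mem _ _) _) ?_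
        split_ifs
        · exact Subring.one_mem _
        · exact Subring.zero_mem _

omit [CharZero E] in
/-- the dual horizontal pair. -/
theorem hp_of_frob' (hA : A.Ax) {G : A.ext.J → Matrix m m (RatFunc E)} {chi : m → RatFunc E} {e : m}
    {n : ℕ} {i : X.I} {M C : ℕ} {Phi Phi' : Matrix m m (RatFunc E)}
    (hG : ∀ a b, G none a b ∈ Ts (Pool.CM.All.ext X E A hA) i)
    (h : Pool.H93.Cube.Frob A.ext G chi e n i M C Phi Phi') :
    HP (A.O i) (X.p i) (X.hp i).ne_zero (A.phi i) M n (-((G none).map (ex E)).transpose)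
      (Phi'.map (ex E)) (Phi.transpose.map (ex E)) := by
  have hP : ∀ a b, Phi a b ∈ Ts (Pool.CM.All.ext X E A hA) i := fun a b => mem_Ts _ (h.t1 a b)
  have hP' : ∀ a b, Phi' a b ∈ Ts (Pool.CM.All.ext X E A hA) i := fun a b => mem_Ts _ (h.t2 a b)
  refine ⟨fun a b => ex_IL hA (hP' a b), fun a b => ex_IL hA (hP b a), ?_, ?_⟩
  · intro a b
    have h1 := h.h2 none a b
    have e1 : ((Phi'.map (ex E)).map Pool.H93.Cube.nab + -((G none).map (ex E)).transpose * Phi'.map (ex E)) a b -
        ((HahnSeries.C ((X.p i : ℕ) : E) : LaurentSeries E) •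
          (Phi'.map (ex E) * (-((G none).map (ex E)).transpose).map
            (phiL (A.phi i) (X.p i) (X.hp i).ne_zero))) a b
        = ex E ((Phi'.map (A.ext.D none) - (G none).transpose * Phi') a b -
          (-(((X.p i : ℕ) : RatFunc E) • (Phi' * ((G none).map (A.ext.phi i)).transpose))) a b) := by
      simp only [Matrix.add_apply, Matrix.sub_apply, Matrix.neg_apply, Matrix.smul_apply,
        Matrix.map_apply, Matrix.mul_apply, Matrix.transpose_apply, map_sub, map_neg,
        map_add, map_sum, map_mul, smul_eq_mul, ex_nat, ex_D, ex_phi, neg_mul, mul_neg,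
        Finset.sum_neg_distrib]
      ring
    rw [e1, ← ex_pL hA]
    · exact h1
    · refine Subring.sub_mem _ ?_ ?_
      · rw [Matrix.sub_apply, Matrix.map_apply, Matrix.mul_apply]
        exact Subring.sub_mem _ (Ts_D _ none (hP' a b))
          (Subring.sum_mem _ fun c _ => Subring.mul_mem _ (hG c a) (hP' c b))
      · rw [Matrix.neg_apply, Matrix.smul_apply, smul_eq_mul, Matrix.mul_apply]
        exact Subring.neg_mem _ (Subring.mul_mem _ (natCast_mem _ _)
          (Subring.sum_mem _ fun c _ => Subring.mul_mem _ (hP' a c) (Ts_phi _ (hG b c))))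
  · intro a b
    have h1 := h.m2 b a
    have e1 : (Phi'.map (ex E) * Phi.transpose.map (ex E)) a b -
        ((HahnSeries.C (((X.p i : ℕ) : E) ^ n) : LaurentSeries E) •
          (1 : Matrix m m (LaurentSeries E))) a b
        = ex E ((Phi * Phi'.transpose) b a - (((X.p i : ℕ) : RatFunc E) ^ n •
          (1 : Matrix m m (RatFunc E))) b a) := by
      simp only [Matrix.smul_apply, Matrix.map_apply, Matrix.mul_apply, map_sub,
        map_sum, map_mul, smul_eq_mul, map_pow, ex_nat, Matrix.one_apply, Matrix.transpose_apply]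
      congr 1
      · exact Finset.sum_congr rfl fun c _ => mul_comm _ _
      · by_cases hab : a = b
        · subst hab; simp
        · rw [if_neg hab, if_neg (fun h => hab h.symm)]; simp
    rw [e1, ← ex_pL hA]
    · exact h1
    · refine Subring.sub_mem _ ?_ ?_
      · rw [Matrix.mul_apply]
        exact Subring.sum_mem _ fun c _ => Subring.mul_mem _ (hP b c) (hP' a c)
      · rw [Matrix.smul_apply, smul_eq_mul, Matrix.one_apply]
        refine Subring.mul_mem _ (Subring.pow_mem _ (natCast_mem _ _) _) ?_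
        split_ifs
        · exact Subring.one_mem _
        · exact Subring.zero_mem _

omit [CharZero E] in
/-- a package over `E(x)` has horizontal pairs. -/
theorem hasHP_of_pkg (hA : A.Ax) {G : A.ext.J → Matrix m m (RatFunc E)} {chi : m → RatFunc E}
    {e : m} {n : ℕ} (h : Pkg A.ext G chi e n) : hasHP A ((G none).map (ex E)) n := by
  have hG := Ts_fixed_mat (Pool.CM.All.ext X E A hA) (G none)
  refine ⟨hG.mono fun i hi a b => ex_IL hA (hi a b), fun M => ?_⟩
  obtain ⟨C, hC⟩ := h.frob M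
  refine (hG.and hC).mono ?_
  rintro i ⟨hi, Phi, Phi', hF⟩
  exact ⟨_, _, hp_of_frob hA hi hF⟩

omit [CharZero E] in
/-- the dual statement. -/
theorem hasHP_of_pkg' (hA : A.Ax) {G : A.ext.J → Matrix m m (RatFunc E)} {chi : m → RatFunc E}
    {e : m} {n : ℕ} (h : Pkg A.ext G chi e n) : hasHP A (-((G none).map (ex E)).transpose) n := by
  have hG := Ts_fixed_mat (Pool.CM.All.ext X E A hA) (G none)
  refine ⟨hG.mono fun i hi a b => ?_, fun M => ?_⟩
  · rw [Matrix.neg_apply, Matrix.transpose_apply]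
    exact (IL (A.O i)).neg_mem (ex_IL hA (hi b a))
  obtain ⟨C, hC⟩ := h.frob M
  refine (hG.and hC).mono ?_
  rintro i ⟨hi, Phi, Phi', hF⟩
  exact ⟨_, _, hp_of_frob' hA hi hF⟩

omit [CharZero E] [DecidableEq m] in
theorem ex_opF (A : PF X E) (G : Matrix m m (RatFunc E)) (v : m → RatFunc E) :
    (fun a => ex E (opF (nabF E) G v a)) = op (G.map (ex E)) (fun a => ex E (v a)) := by
  funext a
  rw [opF_apply, op_apply, map_add, map_sum, ex_nabF A]
  simp only [map_mul, Matrix.map_apply]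

omit [CharZero E] [DecidableEq m] in
theorem ex_opF_pow (A : PF X E) (G : Matrix m m (RatFunc E)) (k : ℕ) (v : m → RatFunc E) :
    (fun a => ex E ((opF (nabF E) G ^ k) v a)) =
      (op (G.map (ex E)) ^ k) (fun a => ex E (v a)) := by
  induction k with
  | zero => rfl
  | succ k ih =>
    rw [pow_succ', pow_succ', Module.End.mul_apply, Module.End.mul_apply, ← ih,
      ← ex_opF A]

omit [CharZero E] [DecidableEq m] in
theorem ex_opF_nil (A : PF X E) (G : Matrix m m (RatFunc E)) (p k : ℕ) (v : m → RatFunc E) :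
    (fun a => ex E (((opF (nabF E) G ^ p - opF (nabF E) G) ^ k) v a)) =
      ((op (G.map (ex E)) ^ p - op (G.map (ex E))) ^ k) (fun a => ex E (v a)) := by
  induction k with
  | zero => rfl
  | succ k ih =>
    rw [pow_succ', pow_succ', Module.End.mul_apply, Module.End.mul_apply, ← ih,
      LinearMap.sub_apply, LinearMap.sub_apply, ← ex_opF_pow A, ← ex_opF A]
    funext a
    rw [Pi.sub_apply, map_sub, Pi.sub_apply]

/-- nilpotency modulo `p` of the connection matrix of a package over `E(x)`. -/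
theorem nilF_of_hasHP (hA : A.Ax) {G : Matrix m m (RatFunc E)} {n : ℕ}
    (h : hasHP A (G.map (ex E)) n) : NilF A G n := by
  intro v
  have hv : X.Ev fun i => ∀ a, v a ∈ Ts (Pool.CM.All.ext X E A hA) i :=
    Idx.Ev.all fun a => Ts_fixed _ (v a)
  refine ((Glue.nilL hA h).and hv).mono ?_
  rintro i ⟨h1, h2⟩ a
  have h3 := h1 (fun a => ex E (v a)) (fun a => ex_IL hA (h2 a)) a
  have h4 := congrFun (ex_opF_nil A G (X.p i) (n + 1) v) a
  beta_reduce at h4
  rw [h4]
  exact h3

theorem nilF_of_pkg (hA : A.Ax) {G : A.ext.J → Matrix m m (RatFunc E)} {chi : m → RatFunc E}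
    {e : m} {n : ℕ} (h : Pkg A.ext G chi e n) : NilF A (G none) n :=
  nilF_of_hasHP hA (hasHP_of_pkg hA h)

end pkg

end Pool.Agent.H70.LIM.Pk
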