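import Pool.Agent.H70.LIM.BinPF
import Pool.Agent.H93.CUBE.LDefs

/-!
Glue between `Pool.Agent.H70.LIM` and `Pool.H93.Cube` : `hasHP` gives `BinOK`, `ROK` and the
nilpotency modulo `p`.
-/

set_option autoImplicit false

namespace Pool.Agent.H70.LIM.Glue

open Finset Polynomial Matrix Pool.CM Pool.H93.Cube

section basic

variable {E : Type} [Field E] {m : Type} [Fintype m] [DecidableEq m]

theorem nab_eq : (Pool.H93.Cube.nab : LaurentSeries E →ₗ[E] LaurentSeries E) =
    Pool.Agent.H70.LIM.nab := rfl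

theorem phiL_eq (φ : E →+* E) (p : ℕ) (hp : p ≠ 0) (hp' : 0 < p) :
    phiL φ p hp = phL φ p hp' := by
  refine RingHom.ext fun f => ?_
  ext k
  by_cases hk : (p : ℤ) ∣ k
  · obtain ⟨c, rfl⟩ := hk
    rw [phiL_coeff_mul, phL_coeff_mul]
  · rw [phiL_coeff_not _ _ _ _ _ hk, phL_coeff_not _ _ _ _ _ hk]

omit [DecidableEq m] in
theorem op_eq (G : Matrix m m (LaurentSeries E)) : op G = TG G := rfl

omit [Fintype m] [DecidableEq m] in
theorem mem_VO_iff (O : Subring E) (v : m → LaurentSeries E) : v ∈ VO m O ↔ VInt O v := Iff.rfl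

theorem C_smul_mat (x : E) (A : Matrix m m (LaurentSeries E)) :
    (HahnSeries.C x : LaurentSeries E) • A = x • A := by
  ext1 a b
  rw [Matrix.smul_apply, Matrix.smul_apply, smul_eq_mul, HahnSeries.C_mul_eq_smul]

theorem exists_of_congL {O : Subring E} {p M : ℕ} {X Y : Matrix m m (LaurentSeries E)}
    (h : CongL O p M X Y) : ∃ R, MO O R ∧ X = Y + (p : E) ^ M • R := by
  have h' : ∀ a b, ∃ g ∈ IL O, X a b - Y a b = HahnSeries.C ((p : E) ^ M) * g :=
    fun a b => mem_pL_iff.1 (h a b)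
  choose g hg he using h'
  refine ⟨fun a b => g a b, fun a b => hg a b, ?_⟩
  ext1 a b
  rw [Matrix.add_apply, Matrix.smul_apply, ← HahnSeries.C_mul_eq_smul, ← he a b]
  ring

end basic

variable {X : Idx} {E : Type} [Field E] [CharZero E] {A : PF X E} {m : Type} [Fintype m]
  [DecidableEq m]

omit [CharZero E] in
theorem frob_of_hasHP {G : Matrix m m (LaurentSeries E)} {n : ℕ} (h : hasHP A G n) :
    ∀ M, X.Ev fun i => ∃ Phi Psi, Pool.Agent.H70.LIM.Frob A i n M G Phi Psi := by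
  intro M
  refine (h.2 M).mono ?_
  rintro i ⟨Phi, Psi, hP⟩
  obtain ⟨R1, hR1, e1⟩ := exists_of_congL hP.hor
  obtain ⟨R2, hR2, e2⟩ := exists_of_congL hP.mul
  refine ⟨Phi, Psi, hP.iPhi, hP.iPsi, ⟨R1, hR1, ?_⟩, ⟨-R2, ?_, ?_⟩⟩
  · rw [C_smul_mat, phiL_eq _ _ _ (X.hp i).pos] at e1
    exact e1
  · exact fun a b => (LOs (A.O i)).neg_mem (hR2 a b)
  · rw [C_smul_mat] at e2
    rw [e2, smul_neg]
    abel

/-- LEMMA BIN in the language of `LDefs`. -/
theorem binOK (hA : A.Ax) {G : Matrix m m (LaurentSeries E)} {n : ℕ} (h : hasHP A G n) (C : ℕ) :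
    X.Ev fun i => BinOK (A.O i) (X.p i) n G (C * X.p i) := by
  refine (binPF hA G n h.1 (frob_of_hasHP h) C).mono ?_
  intro i hi j hj v hv
  refine ⟨_, hi j (by rw [mul_comm]; exact hj) v hv, ?_⟩
  rw [op_eq, smul_comm]
  congr 1
  have h0 : (j.factorial : E) ≠ 0 := Nat.cast_ne_zero.mpr (Nat.factorial_ne_zero j)
  rw [bp, map_mul, aeval_C, Module.End.mul_apply, Module.algebraMap_end_apply, smul_smul,
    mul_inv_cancel₀ h0, one_smul]

/-- LEMMA NIL at the level of Laurent series. -/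
theorem nilL (hA : A.Ax) {G : Matrix m m (LaurentSeries E)} {n : ℕ} (h : hasHP A G n) :
    X.Ev fun i => ∀ v, VInt (A.O i) v → ∀ a,
      (((op G) ^ (X.p i) - op G) ^ (n + 1)) v a ∈ pL (A.O i) (X.p i) 1 := by
  refine (nilPF hA G n h.1 (frob_of_hasHP h)).mono ?_
  intro i hi v hv a
  obtain ⟨w, hw, e⟩ := hi v hv
  rw [mem_pL_iff]
  refine ⟨w a, hw a, ?_⟩
  have := congrFun e a
  rw [op_eq]
  refine this.trans ?_
  rw [Pi.smul_apply, HahnSeries.C_mul_eq_smul, pow_one]

/-- LEMMA R in the language of `LDefs`, with a hypothesis on the characteristic polynomial. -/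
theorem rok' (hA : A.Ax) {G : Matrix m m (LaurentSeries E)} {n : ℕ} (hR : MReg G)
    (hchi : ∀ k : ℕ, 1 ≤ k → (cz G).charpoly.eval (k : E) ≠ 0) (h : hasHP A G n) (q : ℕ) :
    ∃ c, ∀ C, X.Ev fun i => ROK (A.O i) (X.p i) G q c (C * X.p i) := by
  obtain ⟨c, hc⟩ := lemRPF (A := A) hA G hR n q hchi h.1 (frob_of_hasHP h)
  refine ⟨c, fun C => (hc C).mono ?_⟩
  intro i hi M v hv hT a k hk
  have hp0 : ((X.p i : ℕ) : E) ^ M ≠ 0 := pow_ne_zero _ (Nat.cast_ne_zero.mpr (X.hp i).ne_zero)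
  set x := ((op G) ^ q) v with hx
  obtain ⟨w, hw, l, hl, e⟩ := hi M v (by
      intro a k hk
      exact hv a k (by
        have : ((X.p i * C : ℕ) : ℤ) = ((C * X.p i : ℕ) : ℤ) := by rw [mul_comm]
        rw [this] at hk
        exact_mod_cast hk)) (by
      refine ⟨fun a => (((X.p i : ℕ) : E) ^ M)⁻¹ • HahnSeries.truncLT 0 (x a), ?_,
        fun a => x a - HahnSeries.truncLT 0 (x a), ?_, ?_⟩
      · intro a k
        rw [HahnSeries.coeff_smul, smul_eq_mul]
        by_cases hk : k < 0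
        · rw [HahnSeries.coeff_truncLT_of_lt hk]
          obtain ⟨b, hb, he⟩ := hT a k hk
          rw [he, inv_mul_cancel_left₀ hp0]
          exact hb
        · rw [HahnSeries.coeff_truncLT_of_le (not_lt.mp hk), mul_zero]
          exact (A.O i).zero_mem
      · intro a k hk
        rw [HahnSeries.coeff_sub, HahnSeries.coeff_truncLT_of_lt hk, sub_self]
      · funext a
        change x a = _
        rw [Pi.add_apply, Pi.smul_apply, smul_smul, mul_inv_cancel₀ hp0, one_smul]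
        ring)
  have e' := congrArg (fun z => (z a).coeff k) e
  simp only [Pi.smul_apply, Pi.add_apply, HahnSeries.coeff_smul, HahnSeries.coeff_add,
    smul_eq_mul] at e'
  rw [e', hl a k hk, add_zero]
  exact ⟨_, hw a k, rfl⟩

theorem charpoly_ne {u w : Type} [Fintype u] [DecidableEq u] [Fintype w] [DecidableEq w]
    {Bu : Matrix u u E} {Bn : Matrix w w E} (hnil : IsNilpotent Bu)
    (hinv : ∀ z : ℤ, (Bn + (z : E) • (1 : Matrix w w E)).det ≠ 0) (k : ℕ) (hk : 1 ≤ k) :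
    (Matrix.fromBlocks Bu 0 0 Bn).charpoly.eval (k : E) ≠ 0 := by
  rw [Matrix.charpoly_fromBlocks_zero₁₂, Polynomial.eval_mul]
  have hk0 : (k : E) ≠ 0 := Nat.cast_ne_zero.mpr (by omega)
  refine mul_ne_zero ?_ ?_
  · rw [Matrix.eval_charpoly]
    have h1 : IsUnit (Matrix.scalar u (k : E) - Bu) := by
      have hu : IsUnit (Matrix.scalar u (k : E)) := (IsUnit.mk0 _ hk0).map (Matrix.scalar u)
      have hc : Commute (Matrix.scalar u (k : E)) Bu := Matrix.scalar_commute _ (fun _ => Commute.all _ _) _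
      have := hc.symm.isNilpotent_sub
      exact IsNilpotent.isUnit_add_left_of_commute (r := -Bu) (hnil.neg) hu (hc.symm.neg_left) |> fun h => by
        rw [sub_eq_add_neg]; exact h
    exact ((Matrix.isUnit_iff_isUnit_det _).mp h1).ne_zero
  · rw [Matrix.eval_charpoly]
    have h2 := hinv (-(k : ℤ))
    have e : Matrix.scalar w (k : E) - Bn = -(Bn + ((-(k : ℤ) : ℤ) : E) • (1 : Matrix w w E)) := by
      rw [Matrix.scalar_apply, ← Matrix.smul_one_eq_diagonal]
      push_cast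
      module
    rw [e, Matrix.det_neg]
    exact mul_ne_zero (pow_ne_zero _ (by norm_num)) h2

/-- LEMMA R in the language of `LDefs`. -/
theorem rok (hA : A.Ax) {u w : Type} [Fintype u] [DecidableEq u] [Fintype w] [DecidableEq w]
    {G : Matrix (u ⊕ w) (u ⊕ w) (LaurentSeries E)} {Bu : Matrix u u E} {Bn : Matrix w w E}
    (hNF : NF G Bu Bn) {n : ℕ} (h : hasHP A G n) (q : ℕ) :
    ∃ c, ∀ C, X.Ev fun i => ROK (A.O i) (X.p i) G q c (C * X.p i) := by
  refine rok' hA hNF.reg ?_ h q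
  intro k hk
  rw [hNF.c0]
  exact charpoly_ne hNF.nil hNF.inv k hk

end Pool.Agent.H70.LIM.Glue
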