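import Mathlib

/-!
Integer valued divisibility: for `j < p ^ 2` the polynomial `∏_{i<j} (m - i + p X)` is, up to a
natural number prime to `p`, `j !` times an integral polynomial.
-/

namespace Pool.Agent.H70.LIM

open Polynomial Finset

/-- a block of `p` consecutive integers contains a multiple of `p`. -/
lemma exists_dvd_block (p : ℕ) (hp : 0 < p) (m : ℤ) :
    ∃ i : ℕ, i < p ∧ (p : ℤ) ∣ m - i := by
  have hp' : (0 : ℤ) < p := by exact_mod_cast hp
  refine ⟨(m % p).toNat, ?_, ?_⟩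
  · have h1 := Int.emod_lt_of_pos m hp'
    have h0 := Int.emod_nonneg m (ne_of_gt hp')
    omega
  · have h0 := Int.emod_nonneg m (ne_of_gt hp')
    rw [Int.toNat_of_nonneg h0]
    exact Int.dvd_self_sub_emod

lemma pow_dvd_prod_range_mul (p : ℕ) (hp : 0 < p) (m : ℤ) (k : ℕ) :
    (C (p : ℤ) ^ k) ∣ ∏ i ∈ range (p * k), (C (m - (i : ℤ)) + C (p : ℤ) * X) := by
  induction k with
  | zero => simp
  | succ k ih =>
    rw [Nat.mul_succ, Finset.prod_range_add, pow_succ]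
    refine mul_dvd_mul ih ?_
    obtain ⟨i, hi, c, hc⟩ := exists_dvd_block p hp (m - (p * k : ℕ))
    refine dvd_trans ?_ (Finset.dvd_prod_of_mem _ (Finset.mem_range.mpr hi))
    refine ⟨C c + X, ?_⟩
    have : m - ((p * k + i : ℕ) : ℤ) = p * c := by
      rw [← hc]; push_cast; ring
    rw [this, mul_add, ← C_mul]

lemma pow_dvd_prod_range (p : ℕ) (hp : 0 < p) (m : ℤ) (j : ℕ) :
    (C (p : ℤ) ^ (j / p)) ∣ ∏ i ∈ range j, (C (m - (i : ℤ)) + C (p : ℤ) * X) := by
  refine dvd_trans (pow_dvd_prod_range_mul p hp m (j / p)) ?_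
  refine Finset.prod_dvd_prod_of_subset _ _ _ ?_
  intro x hx
  rw [Finset.mem_range] at hx ⊢
  exact lt_of_lt_of_le hx (Nat.mul_div_le j p)

lemma factorial_eq_pow_mul (p : ℕ) (hp : p.Prime) (j : ℕ) (hj : j < p ^ 2) :
    ∃ d : ℕ, ¬ p ∣ d ∧ j.factorial = p ^ (j / p) * d := by
  haveI : Fact p.Prime := ⟨hp⟩
  have hv : padicValNat p j.factorial = j / p := by
    rcases Nat.eq_zero_or_pos j with h0 | h0
    · subst h0; simp
    · have hlog : Nat.log p j < 2 := Nat.log_lt_of_lt_pow (by omega) hj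
      rw [padicValNat_factorial hlog]
      simp
  have hne : j.factorial ≠ 0 := Nat.factorial_ne_zero j
  refine ⟨j.factorial / p ^ (j / p), ?_, ?_⟩
  · have := Nat.not_dvd_ordCompl hp hne
    rw [Nat.factorization_def _ hp, hv] at this
    exact this
  · have hd : p ^ (j / p) ∣ j.factorial := by
      rw [← hv]; exact pow_padicValNat_dvd
    exact (Nat.mul_div_cancel' hd).symm

/-- BIN1. -/
theorem bin1 (p : ℕ) (hp : p.Prime) (j : ℕ) (hj : j < p ^ 2) :
    ∃ d : ℕ, ¬ p ∣ d ∧ ∀ m : ℤ, ∃ Q : ℤ[X],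
      C (d : ℤ) * ∏ i ∈ range j, (C (m - (i : ℤ)) + C (p : ℤ) * X) = C (j.factorial : ℤ) * Q := by
  obtain ⟨d, hd, hj'⟩ := factorial_eq_pow_mul p hp j hj
  refine ⟨d, hd, fun m => ?_⟩
  obtain ⟨Q, hQ⟩ := pow_dvd_prod_range p hp.pos m j
  refine ⟨Q, ?_⟩
  rw [hQ, hj']
  push_cast
  rw [C_mul, C_pow]
  ring

end Pool.Agent.H70.LIM
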