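import Mathlib

/-!
Abstract form of Lemma R (B.8): an operator `T` on an `E`-vector space `V`, a lattice `Vint` stable
under `p ^ n * binom(T, j)`, a subspace `L0`, and a polynomial `chi` whose translates kill the polar
part.
-/

namespace Pool.Agent.H70.LIM

open Polynomial Finset

variable {E : Type*} [Field E] [CharZero E]

/-- the binomial polynomial. -/
noncomputable def bp (E : Type*) [Field E] (j : ℕ) : E[X] :=
  C ((j.factorial : E)⁻¹) * descPochhammer E j

lemma natDegree_bp (j : ℕ) : (bp E j).natDegree = j := by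
  have h : ((j.factorial : E)⁻¹) ≠ 0 := inv_ne_zero (Nat.cast_ne_zero.mpr (Nat.factorial_ne_zero j))
  rw [bp, Polynomial.natDegree_C_mul h, descPochhammer_natDegree]

lemma bp_eval_natCast (j k : ℕ) : (bp E j).eval (k : E) = (k.choose j : E) := by
  have h : (j.factorial : E) ≠ 0 := Nat.cast_ne_zero.mpr (Nat.factorial_ne_zero j)
  rw [bp, Polynomial.eval_mul, Polynomial.eval_C, descPochhammer_eval_eq_descFactorial,
    Nat.descFactorial_eq_factorial_mul_choose]
  push_cast
  field_simp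

omit [CharZero E] in
lemma bp_zero : bp E 0 = 1 := by simp [bp]

lemma bp_succ_comp (j : ℕ) :
    (bp E (j + 1)).comp (X - 1) = bp E (j + 1) - (bp E j).comp (X - 1) := by
  have h : (j.factorial : E) ≠ 0 := Nat.cast_ne_zero.mpr (Nat.factorial_ne_zero j)
  have h2 : ((j : E) + 1) ≠ 0 := by exact_mod_cast Nat.succ_ne_zero j
  rw [bp, bp, Polynomial.mul_comp, Polynomial.mul_comp, descPochhammer_succ_comp_X_sub_one,
    Polynomial.C_comp, Polynomial.C_comp, mul_sub]
  congr 1
  rw [Nat.factorial_succ]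
  push_cast
  have e : ((j : E[X]) + 1) = C ((j : E) + 1) := by simp
  rw [smul_eq_mul, e, ← mul_assoc, ← C_mul]
  congr 2
  field_simp

/-- Newton expansion at the points `1, 2, ..`. -/
lemma newton_expansion (W : E[X]) (B : ℕ) (hW : W.natDegree ≤ B) :
    W = ∑ j ∈ range (B + 1),
      C (∑ k ∈ range (j + 1), ((-1 : ℤ) ^ (j - k) * (j.choose k : ℤ) : ℤ) • W.eval ((1 + k : ℕ) : E)) *
        (bp E j).comp (X - 1) := by
  classical
  set a : ℕ → E := fun j => ∑ k ∈ range (j + 1),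
    ((-1 : ℤ) ^ (j - k) * (j.choose k : ℤ) : ℤ) • W.eval ((1 + k : ℕ) : E) with ha
  change W = ∑ j ∈ range (B + 1), C (a j) * (bp E j).comp (X - 1)
  have ha' : ∀ j, a j = (fwdDiff 1)^[j] (fun k : ℕ => W.eval ((1 + k : ℕ) : E)) 0 := by
    intro j
    rw [fwdDiff_iter_eq_sum_shift]
    rw [ha]
    refine Finset.sum_congr rfl (fun k _ => ?_)
    simp
  have hXd : ((X : E[X]) - 1).natDegree = 1 := by
    have := Polynomial.natDegree_X_sub_C (1 : E)
    simpa using this
  refine Polynomial.eq_of_degree_sub_lt_of_eval_finset_eq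
    ((range (B + 1)).image (fun k : ℕ => ((1 + k : ℕ) : E))) ?_ ?_
  · rw [Finset.card_image_of_injective _ (by
      intro a b hab
      have h1 : ((1 + a : ℕ) : E) = ((1 + b : ℕ) : E) := hab
      have : (1 + a : ℕ) = 1 + b := Nat.cast_injective h1
      omega), Finset.card_range]
    refine lt_of_le_of_lt (Polynomial.degree_le_natDegree) ?_
    have : (W - ∑ j ∈ range (B + 1), C (a j) * (bp E j).comp (X - 1)).natDegree ≤ B := by
      refine le_trans (Polynomial.natDegree_sub_le_of_le (n := B) hW ?_) (le_of_eq (max_self B))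
      refine Polynomial.natDegree_sum_le_of_forall_le _ _ ?_
      intro j hj
      refine (Polynomial.natDegree_C_mul_le _ _).trans ?_
      rw [Polynomial.natDegree_comp, natDegree_bp, hXd, mul_one]
      exact Nat.lt_succ_iff.mp (Finset.mem_range.mp hj)
    exact_mod_cast Nat.lt_succ_of_le this
  · intro y hy
    rw [Finset.mem_image] at hy
    obtain ⟨k, hk, rfl⟩ := hy
    have hk' := Finset.mem_range.mp hk
    rw [Polynomial.eval_finsetSum]
    have e1 : ∀ j : ℕ, (C (a j) * (bp E j).comp (X - 1)).eval ((1 + k : ℕ) : E)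
        = a j * (k.choose j : E) := by
      intro j
      rw [Polynomial.eval_mul, Polynomial.eval_C, Polynomial.eval_comp]
      congr 1
      rw [← bp_eval_natCast]
      congr 1
      simp
    simp only [e1]
    have h2 := shift_eq_sum_fwdDiff_iter (h := 1) (fun k : ℕ => W.eval ((1 + k : ℕ) : E)) k 0
    rw [smul_eq_mul, mul_one, zero_add] at h2
    have h3 : W.eval ((1 + k : ℕ) : E) = ∑ j ∈ range (k + 1),
        k.choose j • (fwdDiff 1)^[j] (fun k : ℕ => W.eval ((1 + k : ℕ) : E)) 0 := h2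
    rw [h3]
    rw [← Finset.sum_subset (Finset.range_subset_range.mpr (show k + 1 ≤ B + 1 by omega))]
    · refine Finset.sum_congr rfl (fun j _ => ?_)
      rw [ha', nsmul_eq_mul, mul_comm]
    · intro j _ hj
      rw [Finset.mem_range, not_lt] at hj
      rw [Nat.choose_eq_zero_of_lt (by omega)]
      simp


section Op

variable {V : Type*} [AddCommGroup V] [Module E V] (T : Module.End E V)

lemma bin_shift (Vint : AddSubgroup V) (q : E) (B : ℕ)
    (hbin : ∀ j ≤ B, ∀ v ∈ Vint, q • aeval T (bp E j) v ∈ Vint) :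
    ∀ j ≤ B, ∀ v ∈ Vint, q • aeval T ((bp E j).comp (X - 1)) v ∈ Vint := by
  intro j
  induction j with
  | zero =>
    intro _ v hv
    have := hbin 0 (Nat.zero_le _) v hv
    rw [bp_zero] at this ⊢
    simpa using this
  | succ j ih =>
    intro hj v hv
    rw [bp_succ_comp, map_sub, LinearMap.sub_apply, smul_sub]
    exact Vint.sub_mem (hbin (j + 1) hj v hv) (ih (by omega) v hv)

lemma poly_int (O : Subring E) (Vint : AddSubgroup V)
    (hO : ∀ x ∈ O, ∀ v ∈ Vint, x • v ∈ Vint) (q s : E) (B : ℕ)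
    (hbin : ∀ j ≤ B, ∀ v ∈ Vint, q • aeval T (bp E j) v ∈ Vint)
    (W : E[X]) (hW : W.natDegree ≤ B) (hs : ∀ k ≤ B, s * W.eval ((1 + k : ℕ) : E) ∈ O)
    (v : V) (hv : v ∈ Vint) : (s * q) • aeval T W v ∈ Vint := by
  have hb := bin_shift T Vint q B hbin
  rw [newton_expansion W B hW, map_sum, LinearMap.sum_apply, Finset.smul_sum]
  refine AddSubgroup.sum_mem _ ?_
  intro j hj
  have hj' : j ≤ B := Nat.lt_succ_iff.mp (Finset.mem_range.mp hj)
  rw [map_mul, aeval_C, Module.End.mul_apply, Module.algebraMap_end_apply, smul_smul,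
    mul_comm s q, mul_assoc, mul_comm q, mul_smul]
  refine hO _ ?_ _ (hb j hj' v hv)
  rw [Finset.mul_sum]
  refine O.sum_mem ?_
  intro k hk
  have hk' : k ≤ B := (Nat.lt_succ_iff.mp (Finset.mem_range.mp hk)).trans hj'
  rw [mul_smul_comm]
  exact O.zsmul_mem (hs k hk') _

/-- abstract Lemma R. -/
theorem lemmaR (p : ℕ) (O : Subring E) (L0 LC : Submodule E V) (Vint : AddSubgroup V)
    (hO : ∀ x ∈ O, ∀ v ∈ Vint, x • v ∈ Vint) (chi : E[X]) (N r n e Cc B : ℕ)
    (hT0 : ∀ v ∈ L0, T v ∈ L0) (hpO : (p : E) ∈ O)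
    (hne : ∀ i < p * Cc, chi.eval ((i + 1 : ℕ) : E) ≠ 0)
    (hCH : ∀ v ∈ LC, aeval T (∏ i ∈ range (p * Cc), chi.comp (X + C ((i + 1 : ℕ) : E))) v ∈ L0)
    (hchi : chi.natDegree ≤ N) (hB : r * (p * Cc * N) ≤ B)
    (hbin : ∀ j ≤ B, ∀ v ∈ Vint, (p : E) ^ n • aeval T (bp E j) v ∈ Vint)
    (hval : ∀ x : ℤ, (p : E) ^ e * ∏ i ∈ range (p * Cc),
      (chi.eval ((x : E) + ((i + 1 : ℕ) : E)) * (chi.eval ((i + 1 : ℕ) : E))⁻¹) ∈ O)
    (hinv : ∀ k ≤ B, (p : E) * ((1 + k : ℕ) : E)⁻¹ ∈ O)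
    (m : V) (hm : m ∈ LC) (M : ℕ)
    (hTm : ∃ w ∈ Vint, ∃ l ∈ L0, (T ^ r) m = (p : E) ^ M • w + l) :
    ∃ w ∈ Vint, ∃ l ∈ L0, (p : E) ^ (r * (e + 1) + n) • m = (p : E) ^ M • w + l := by
  have hpoly0 : ∀ (W : E[X]) (v : V), v ∈ L0 → aeval T W v ∈ L0 := by
    intro W v hv
    induction W using Polynomial.induction_on' with
    | add f g hf hg =>
      rw [map_add, LinearMap.add_apply]
      exact L0.add_mem hf hg
    | monomial k a =>
      rw [Polynomial.aeval_monomial, Module.End.mul_apply, Module.algebraMap_end_apply]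
      refine L0.smul_mem _ ?_
      clear hm hTm
      induction k with
      | zero => simpa using hv
      | succ k ih =>
        rw [pow_succ', Module.End.mul_apply]
        exact hT0 _ ih
  set P0 : E[X] := ∏ i ∈ range (p * Cc), chi.comp (X + C ((i + 1 : ℕ) : E)) with hP0
  set c0 : E := ∏ i ∈ range (p * Cc), (chi.eval ((i + 1 : ℕ) : E))⁻¹ with hc0
  set A : E[X] := P0 * C c0 with hA
  have hAev : ∀ y : E, A.eval y = ∏ i ∈ range (p * Cc),
      (chi.eval (y + ((i + 1 : ℕ) : E)) * (chi.eval ((i + 1 : ℕ) : E))⁻¹) := by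
    intro y
    rw [hA, Polynomial.eval_mul, Polynomial.eval_C, hP0, Polynomial.eval_prod, hc0,
      Finset.prod_mul_distrib]
    congr 1
    refine Finset.prod_congr rfl (fun i _ => ?_)
    rw [Polynomial.eval_comp]
    simp
  have hA0 : A.eval 0 = 1 := by
    rw [hAev]
    refine Finset.prod_eq_one ?_
    intro i hi
    rw [zero_add]
    exact mul_inv_cancel₀ (hne i (Finset.mem_range.mp hi))
  have hAdeg : A.natDegree ≤ p * Cc * N := by
    rw [hA]
    refine (Polynomial.natDegree_mul_C_le _ _).trans ?_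
    rw [hP0]
    refine (Polynomial.natDegree_prod_le _ _).trans ?_
    calc ∑ i ∈ range (p * Cc), (chi.comp (X + C ((i + 1 : ℕ) : E))).natDegree
        ≤ ∑ i ∈ range (p * Cc), N := by
          refine Finset.sum_le_sum (fun i _ => ?_)
          rw [Polynomial.natDegree_comp, Polynomial.natDegree_X_add_C, mul_one]
          exact hchi
      _ = p * Cc * N := by simp
  obtain ⟨Q, hQ⟩ : (X : E[X]) ∣ 1 - A := by
    rw [Polynomial.X_dvd_iff, Polynomial.coeff_zero_eq_eval_zero]
    simp [hA0]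
  obtain ⟨S, hS⟩ : A ∣ 1 - (1 - A) ^ r := by
    have := sub_dvd_pow_sub_pow (1 : E[X]) (1 - A) r
    rw [one_pow] at this
    simpa using this
  have hQdeg : Q.natDegree ≤ p * Cc * N := by
    by_cases hQ0 : Q = 0
    · simp [hQ0]
    · have h1 : (1 - A).natDegree ≤ p * Cc * N := by
        refine (Polynomial.natDegree_sub_le_of_le (m := p * Cc * N) ?_ hAdeg).trans ?_
        · simp
        · simp
      rw [hQ, Polynomial.natDegree_X_mul hQ0] at h1
      omega
  have hQrdeg : (Q ^ r).natDegree ≤ B := by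
    refine (Polynomial.natDegree_pow_le).trans ?_
    exact (Nat.mul_le_mul_left r hQdeg).trans hB
  have hone : (1 : E[X]) = S * A + Q ^ r * X ^ r := by
    have : Q ^ r * X ^ r = (1 - A) ^ r := by rw [hQ, mul_pow, mul_comm]
    rw [this, mul_comm S, ← hS]; ring
  have hm1 : m = aeval T S (aeval T A m) + aeval T (Q ^ r) ((T ^ r) m) := by
    conv_lhs => rw [← Module.End.one_apply (R := E) m, ← map_one (aeval (R := E) T), hone]
    rw [map_add, LinearMap.add_apply, map_mul (aeval (R := E) T) S A,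
      map_mul (aeval (R := E) T) (Q ^ r) (X ^ r), map_pow (aeval (R := E) T) X, aeval_X]
    rfl
  have hAm : aeval T A m ∈ L0 := by
    rw [hA, mul_comm, map_mul, aeval_C, Module.End.mul_apply, Module.algebraMap_end_apply]
    exact L0.smul_mem _ (hCH m hm)
  obtain ⟨w, hw, l, hl, hTm⟩ := hTm
  have hQint : ∀ k ≤ B, (p : E) ^ (r * (e + 1)) * (Q ^ r).eval ((1 + k : ℕ) : E) ∈ O := by
    intro k hk
    have hk0 : ((1 + k : ℕ) : E) ≠ 0 := Nat.cast_ne_zero.mpr (by omega)
    have e1 : (p : E) ^ (r * (e + 1)) * (Q ^ r).eval ((1 + k : ℕ) : E)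
        = ((p : E) ^ (e + 1) * Q.eval ((1 + k : ℕ) : E)) ^ r := by
      rw [Polynomial.eval_pow, mul_pow, ← pow_mul, mul_comm r]
    rw [e1]
    refine O.pow_mem ?_ r
    have e2 : Q.eval ((1 + k : ℕ) : E)
        = (1 - A.eval ((1 + k : ℕ) : E)) * (((1 + k : ℕ) : E))⁻¹ := by
      have := congrArg (fun q : E[X] => q.eval ((1 + k : ℕ) : E)) hQ
      simp only [Polynomial.eval_mul, Polynomial.eval_X, Polynomial.eval_sub,
        Polynomial.eval_one] at this
      rw [this]
      field_simp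
    rw [e2]
    have e3 : (p : E) ^ (e + 1) * ((1 - A.eval ((1 + k : ℕ) : E)) * (((1 + k : ℕ) : E))⁻¹)
        = ((p : E) ^ e - (p : E) ^ e * A.eval ((1 + k : ℕ) : E)) *
          ((p : E) * (((1 + k : ℕ) : E))⁻¹) := by
      rw [pow_succ]; ring
    rw [e3]
    refine O.mul_mem (O.sub_mem (O.pow_mem hpO e) ?_) (hinv k hk)
    rw [hAev]
    have := hval ((1 + k : ℕ) : ℤ)
    simpa using this
  refine ⟨((p : E) ^ (r * (e + 1)) * (p : E) ^ n) • aeval T (Q ^ r) w,
    poly_int T O Vint hO _ _ B hbin (Q ^ r) hQrdeg hQint w hw,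
    (p : E) ^ (r * (e + 1) + n) • (aeval T S (aeval T A m) + aeval T (Q ^ r) l), ?_, ?_⟩
  · exact L0.smul_mem _ (L0.add_mem (hpoly0 _ _ hAm) (hpoly0 _ _ hl))
  · conv_lhs => rw [hm1, hTm]
    rw [map_add, map_smul]
    rw [smul_add, smul_add, smul_add, ← pow_add]
    rw [smul_comm ((p : E) ^ (r * (e + 1) + n)) ((p : E) ^ M)]
    abel

end Op

end Pool.Agent.H70.LIM
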