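import Pool.Agent.H70.LIM.Bin1
import Pool.Agent.H70.LIM.RAbs

/-!
Abstract form of Lemma BIN (B.2) and Lemma NIL (B.3).
-/

namespace Pool.Agent.H70.LIM

open Polynomial Finset

variable {E : Type*} [Field E] [CharZero E] {V : Type*} [AddCommGroup V] [Module E V]

omit [CharZero E] in
/-- integral polynomials in an operator which preserves a subgroup preserve it. -/
lemma aeval_int_mem {V : Type*} [AddCommGroup V] [Module E V] (T : Module.End E V)
    (Vint : AddSubgroup V)
    (hT : ∀ v ∈ Vint, T v ∈ Vint) (h : ℤ[X]) (v : V) (hv : v ∈ Vint) :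
    aeval T h v ∈ Vint := by
  induction h using Polynomial.induction_on' with
  | add f g hf hg =>
    rw [map_add, LinearMap.add_apply]
    exact Vint.add_mem hf hg
  | monomial k a =>
    rw [Polynomial.aeval_monomial]
    have h1 : (T ^ k) v ∈ Vint := by
      induction k with
      | zero => simpa using hv
      | succ k ih =>
        rw [pow_succ', Module.End.mul_apply]
        exact hT _ ih
    have h2 : ((algebraMap ℤ (Module.End E V)) a * T ^ k) v = a • ((T ^ k) v) := by
      rw [Module.End.mul_apply]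
      simp
    rw [h2]
    exact Vint.zsmul_mem h1 a

/-- the integral polynomial `X (X-1) ... (X-j+1)`. -/
noncomputable def fp (j : ℕ) : ℤ[X] := ∏ i ∈ range j, (X - C (i : ℤ))

lemma fp_eq (j : ℕ) : fp j = descPochhammer ℤ j := by
  induction j with
  | zero => simp [fp]
  | succ j ih =>
    rw [fp, Finset.prod_range_succ, descPochhammer_succ_right, ← fp, ih]
    simp

lemma aeval_bp (T : Module.End E V) (j : ℕ) (v : V) :
    (j.factorial : E) • aeval T (bp E j) v = aeval T (fp j) v := by
  have h : (j.factorial : E) ≠ 0 := Nat.cast_ne_zero.mpr (Nat.factorial_ne_zero j)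
  rw [bp, map_mul, aeval_C, Module.End.mul_apply, Module.algebraMap_end_apply, smul_smul,
    mul_inv_cancel₀ h, one_smul, fp_eq]
  have : aeval T (descPochhammer ℤ j) = aeval T (descPochhammer E j) := by
    rw [show descPochhammer E j = (descPochhammer ℤ j).map (algebraMap ℤ E) from
      (descPochhammer_map (Int.castRingHom E) j).symm, Polynomial.aeval_map_algebraMap]
  rw [this]

omit [CharZero E] in
/-- commutation of an integral polynomial with an approximate intertwiner. -/
lemma aeval_intertwine (T Tphi Phi : Module.End E V) (Vint : AddSubgroup V) (q : E)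
    (hT : ∀ v ∈ Vint, T v ∈ Vint) (hTphi : ∀ v ∈ Vint, Tphi v ∈ Vint)
    (h1 : ∀ v ∈ Vint, ∃ w ∈ Vint, T (Phi v) = Phi (Tphi v) + q • w) (h : ℤ[X]) :
    ∀ v ∈ Vint, ∃ w ∈ Vint, aeval T h (Phi v) = Phi (aeval Tphi h v) + q • w := by
  induction h using Polynomial.induction_on' with
  | add f g hf hg =>
    intro v hv
    obtain ⟨w1, hw1, e1⟩ := hf v hv
    obtain ⟨w2, hw2, e2⟩ := hg v hv
    refine ⟨w1 + w2, Vint.add_mem hw1 hw2, ?_⟩
    rw [map_add, map_add, LinearMap.add_apply, LinearMap.add_apply, e1, e2, map_add, smul_add]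
    abel
  | monomial k a =>
    have hk : ∀ v ∈ Vint, ∃ w ∈ Vint, (T ^ k) (Phi v) = Phi ((Tphi ^ k) v) + q • w := by
      induction k with
      | zero =>
        intro v hv
        exact ⟨0, Vint.zero_mem, by simp⟩
      | succ k ih =>
        intro v hv
        obtain ⟨w, hw, e⟩ := ih v hv
        have hk' : (Tphi ^ k) v ∈ Vint := by
          clear ih e
          induction k with
          | zero => simpa using hv
          | succ k ih =>
            rw [pow_succ', Module.End.mul_apply]
            exact hTphi _ ih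
        obtain ⟨w', hw', e'⟩ := h1 _ hk'
        refine ⟨w' + T w, Vint.add_mem hw' (hT w hw), ?_⟩
        rw [pow_succ', Module.End.mul_apply, e, map_add, e', map_smul, smul_add, pow_succ',
          Module.End.mul_apply]
        abel
    intro v hv
    obtain ⟨w, hw, e⟩ := hk v hv
    refine ⟨a • w, Vint.zsmul_mem hw a, ?_⟩
    have h2 : ∀ (S : Module.End E V) (y : V),
        ((algebraMap ℤ (Module.End E V)) a * S) y = a • (S y) := by
      intro S y
      rw [Module.End.mul_apply]
      simp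
    rw [Polynomial.aeval_monomial, Polynomial.aeval_monomial, h2, h2, e, smul_add, map_zsmul,
      smul_comm a q w]

/-- abstract Lemma BIN. -/
theorem binAbs (p : ℕ) (hp : p.Prime) (O : Subring E) (Vint : AddSubgroup V)
    (hO : ∀ x ∈ O, ∀ v ∈ Vint, x • v ∈ Vint)
    (hinv : ∀ d : ℕ, ¬ p ∣ d → ((d : E))⁻¹ ∈ O)
    (T Tphi Phi Psi S : Module.End E V) (io : ℕ → Module.End E V) (n M : ℕ)
    (hT : ∀ v ∈ Vint, T v ∈ Vint) (hTphi : ∀ v ∈ Vint, Tphi v ∈ Vint)
    (hPhi : ∀ v ∈ Vint, Phi v ∈ Vint) (hPsi : ∀ v ∈ Vint, Psi v ∈ Vint)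
    (hS : ∀ v ∈ Vint, S v ∈ Vint) (hio : ∀ m < p, ∀ v ∈ Vint, io m v ∈ Vint)
    (h1 : ∀ v ∈ Vint, ∃ w ∈ Vint, T (Phi v) = Phi (Tphi v) + (p : E) ^ M • w)
    (h3 : ∀ v ∈ Vint, ∃ w ∈ Vint, (p : E) ^ n • v = Phi (Psi v) + (p : E) ^ M • w)
    (h4 : ∀ m < p, ∀ w : V, Tphi (io m w) = io m ((m : E) • w + (p : E) • S w))
    (h5 : ∀ v ∈ Vint, ∃ w : ℕ → V, (∀ m, w m ∈ Vint) ∧ v = ∑ m ∈ range p, io m (w m))
    (j : ℕ) (hj : j < p ^ 2) (hjM : j / p ≤ M) :
    ∀ v ∈ Vint, (p : E) ^ n • aeval T (bp E j) v ∈ Vint := by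
  obtain ⟨d, hd, hQ⟩ := bin1 p hp j hj
  obtain ⟨d', hd', hjd⟩ := factorial_eq_pow_mul p hp j hj
  have hpO : (p : E) ∈ O := natCast_mem O p
  have hd0 : (d : E) ≠ 0 := by
    intro h
    have : d = 0 := by exact_mod_cast h
    exact hd (this ▸ dvd_zero p)
  have hf0 : (j.factorial : E) ≠ 0 := Nat.cast_ne_zero.mpr (Nat.factorial_ne_zero j)
  -- binom(Tphi, j) is integral
  have hA : ∀ m < p, ∀ w ∈ Vint, ∃ w' ∈ Vint, aeval Tphi (fp j) (io m w) = (j.factorial : E) • w' := by
    intro m hm w hw
    obtain ⟨Q, hQ⟩ := hQ (m : ℤ)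
    have hcomm : ∀ (k : ℕ) (w : V), aeval Tphi (fp k) (io m w) =
        io m (aeval S (∏ i ∈ range k, (C ((m : ℤ) - (i : ℤ)) + C (p : ℤ) * X)) w) := by
      intro k
      induction k with
      | zero => intro w; simp [fp]
      | succ k ih =>
        intro w
        rw [fp, Finset.prod_range_succ, ← fp, Finset.prod_range_succ, map_mul, map_mul,
          Module.End.mul_apply, Module.End.mul_apply]
        have e1 : aeval Tphi ((X : ℤ[X]) - C (k : ℤ)) (io m w)
            = io m (aeval S (C ((m : ℤ) - (k : ℤ)) + C (p : ℤ) * X) w) := by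
          have e2 : aeval Tphi ((X : ℤ[X]) - C (k : ℤ)) (io m w)
              = Tphi (io m w) - (k : E) • io m w := by
            rw [map_sub, LinearMap.sub_apply, aeval_X]
            congr 1
            simp
            exact (Nat.cast_smul_eq_nsmul E k _).symm
          have e3 : aeval S (C ((m : ℤ) - (k : ℤ)) + C (p : ℤ) * X) w
              = ((m : E) - (k : E)) • w + (p : E) • S w := by
            rw [map_add, LinearMap.add_apply, map_mul, aeval_X, Module.End.mul_apply]
            congr 1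
            · simp [sub_smul]
              rw [Nat.cast_smul_eq_nsmul, Nat.cast_smul_eq_nsmul]
            · simp
              exact (Nat.cast_smul_eq_nsmul E p _).symm
          rw [e2, e3, h4 m hm, map_add, map_add, sub_smul, map_sub, map_smul (io m) (k : E)]
          abel
        rw [e1, ih]
    rw [hcomm j w]
    refine ⟨io m ((d : E)⁻¹ • aeval S Q w), ?_, ?_⟩
    · exact hio m hm _ (hO _ (hinv d hd) _ (aeval_int_mem S Vint hS Q w hw))
    · rw [← map_smul, smul_smul]
      congr 1
      have := congrArg (fun q : ℤ[X] => aeval S q w) hQ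
      simp only [map_mul, aeval_C, Module.End.mul_apply] at this
      have e4 : ∀ (k : ℕ) (y : V), ((algebraMap ℤ (Module.End E V)) (k : ℤ)) y = (k : E) • y := by
        intro k y
        simp
        exact (Nat.cast_smul_eq_nsmul E k _).symm
      rw [e4, e4] at this
      rw [mul_comm (j.factorial : E) ((d : E)⁻¹), mul_smul, ← this, smul_smul,
        inv_mul_cancel₀ hd0, one_smul]
  have hB : ∀ v ∈ Vint, ∃ w' ∈ Vint, aeval Tphi (fp j) v = (j.factorial : E) • w' := by
    intro v hv
    obtain ⟨w, hw, e⟩ := h5 v hv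
    have hx : ∀ m ∈ range p, ∃ w' ∈ Vint, aeval Tphi (fp j) (io m (w m)) = (j.factorial : E) • w' :=
      fun m hm => hA m (Finset.mem_range.mp hm) (w m) (hw m)
    choose! w' hw' e' using hx
    refine ⟨∑ m ∈ range p, w' m, Vint.sum_mem (fun m hm => hw' m hm), ?_⟩
    rw [e, map_sum, Finset.smul_sum]
    exact Finset.sum_congr rfl e'
  intro v hv
  obtain ⟨w3, hw3, e3⟩ := h3 v hv
  obtain ⟨w1, hw1, e1⟩ := aeval_intertwine T Tphi Phi Vint ((p : E) ^ M)
    hT hTphi h1 (fp j) (Psi v) (hPsi v hv)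
  obtain ⟨w2, hw2, e2⟩ := hB (Psi v) (hPsi v hv)
  -- p ^ M is a multiple of j!
  obtain ⟨y, hy, ey⟩ : ∃ y ∈ O, (p : E) ^ M = (j.factorial : E) * y := by
    refine ⟨(p : E) ^ (M - j / p) * (d' : E)⁻¹, O.mul_mem (O.pow_mem hpO _) (hinv d' hd'), ?_⟩
    have hd'0 : (d' : E) ≠ 0 := by
      intro h
      have : d' = 0 := by exact_mod_cast h
      exact hd' (this ▸ dvd_zero p)
    rw [hjd]
    push_cast
    have : (p : E) ^ M = (p : E) ^ (j / p) * (p : E) ^ (M - j / p) := by
      rw [← pow_add]; congr 1; omega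
    rw [this]
    field_simp
  have key : (j.factorial : E) • ((p : E) ^ n • aeval T (bp E j) v)
      = (j.factorial : E) • (Phi w2 + y • w1 + y • aeval T (fp j) w3) := by
    rw [smul_comm, aeval_bp, ← map_smul, e3, map_add, e1, e2, map_smul, map_smul, ey,
      smul_add, smul_add, smul_smul, smul_smul]
  have hinj : ∀ a b : V, (j.factorial : E) • a = (j.factorial : E) • b → a = b := by
    intro a b hab
    have := congrArg (fun z => ((j.factorial : E))⁻¹ • z) hab
    simpa [smul_smul, inv_mul_cancel₀ hf0] using this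
  rw [hinj _ _ key]
  exact Vint.add_mem (Vint.add_mem (hPhi _ hw2) (hO _ hy _ hw1))
    (hO _ hy _ (aeval_int_mem T Vint hT _ _ hw3))

end Pool.Agent.H70.LIM
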