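import Pool.Agent.H70.LIM.BinAbs
import Pool.Agent.H80.CM.Cng

/-!
Abstract form of Lemma NIL (B.3).
-/

namespace Pool.Agent.H70.LIM

open Polynomial Finset

variable {E : Type*} [Field E] [CharZero E] {V : Type*} [AddCommGroup V] [Module E V]

/-- abstract Lemma NIL. -/
theorem nilAbs (p : ℕ) (hp : p.Prime) (Vint : AddSubgroup V) (T : Module.End E V) (n : ℕ)
    (hn : n + 1 < p) (hT : ∀ v ∈ Vint, T v ∈ Vint)
    (hbin : ∀ v ∈ Vint, (p : E) ^ n • aeval T (bp E (p * (n + 1))) v ∈ Vint) :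
    ∀ v ∈ Vint, ∃ w ∈ Vint, ((T ^ p - T) ^ (n + 1)) v = (p : E) • w := by
  have : Fact p.Prime := ⟨hp⟩
  obtain ⟨Q, hQ⟩ := Pool.H80.CM.cng p (n + 1)
  intro v hv
  obtain ⟨d, hd, hf⟩ := factorial_eq_pow_mul p hp (p * (n + 1)) (by
    rw [sq]; exact Nat.mul_lt_mul_of_pos_left hn hp.pos)
  have hdiv : p * (n + 1) / p = n + 1 := Nat.mul_div_cancel_left _ hp.pos
  rw [hdiv] at hf
  have e1 : ((T ^ p - T) ^ (n + 1)) v = aeval T (fp (p * (n + 1))) v - (p : E) • aeval T Q v := by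
    have h := congrArg (fun q : ℤ[X] => aeval T q v) hQ
    simp only [map_add, map_mul, map_pow, map_sub, aeval_X, aeval_C, LinearMap.add_apply,
      Module.End.mul_apply] at h
    rw [fp_eq, h]
    have e2 : ((algebraMap ℤ (Module.End E V)) (p : ℤ)) (aeval T Q v) = (p : E) • aeval T Q v := by
      simp
      exact (Nat.cast_smul_eq_nsmul E p _).symm
    rw [e2]; abel
  have e3 : aeval T (fp (p * (n + 1))) v
      = (p : E) • ((d : ℕ) • ((p : E) ^ n • aeval T (bp E (p * (n + 1))) v)) := by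
    rw [← aeval_bp, hf, ← Nat.cast_smul_eq_nsmul E d, smul_smul, smul_smul]
    congr 1
    push_cast
    rw [pow_succ]; ring
  refine ⟨(d : ℕ) • ((p : E) ^ n • aeval T (bp E (p * (n + 1))) v) - aeval T Q v, ?_, ?_⟩
  · exact Vint.sub_mem (Vint.nsmul_mem (hbin v hv) d) (aeval_int_mem T Vint hT Q v hv)
  · rw [e1, e3, smul_sub]

end Pool.Agent.H70.LIM
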