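import Pool.Agent.H70.LIM.Laur
import Pool.Agent.H70.LIM.NilAbs

/-!
Lemmas BIN and NIL for Laurent series: `G`, `Phi`, `Psi` matrices over `LaurentSeries E` with
coefficients in `O`.
-/

namespace Pool.Agent.H70.LIM

open Finset Polynomial Matrix

variable {E : Type*} [Field E] {ι : Type*} [Fintype ι] [DecidableEq ι]

/-- multiplication by a matrix as an `E`-linear map. -/
noncomputable def mv (A : Matrix ι ι (LaurentSeries E)) : Module.End E (ι → LaurentSeries E) where
  toFun v := A *ᵥ v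
  map_add' v w := Matrix.mulVec_add A v w
  map_smul' a v := by
    ext i
    rw [RingHom.id_apply, Pi.smul_apply, Matrix.mulVec, Matrix.mulVec, dotProduct, dotProduct,
      Finset.smul_sum]
    refine congrArg (fun z => HahnSeries.coeff z _) (Finset.sum_congr rfl (fun j _ => ?_))
    rw [Pi.smul_apply, ← HahnSeries.single_zero_mul_eq_smul, ← HahnSeries.single_zero_mul_eq_smul]
    ring

lemma mv_apply (A : Matrix ι ι (LaurentSeries E)) (v : ι → LaurentSeries E) :
    mv A v = A *ᵥ v := rfl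

/-- `x d/dx` on vectors. -/
noncomputable def nabV (E ι : Type*) [Field E] : Module.End E (ι → LaurentSeries E) :=
  nab.compLeft ι

lemma nabV_apply (v : ι → LaurentSeries E) (a : ι) : nabV E ι v a = nab (v a) := rfl

/-- the connection `x d/dx + G`. -/
noncomputable def TG (G : Matrix ι ι (LaurentSeries E)) : Module.End E (ι → LaurentSeries E) :=
  nabV E ι + mv G

/-- integral vectors. -/
def VO (ι : Type*) (O : Subring E) : AddSubgroup (ι → LaurentSeries E) where
  carrier := {v | ∀ a, v a ∈ LOs O}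
  add_mem' hv hw a := (LOs O).add_mem (hv a) (hw a)
  zero_mem' _ := (LOs O).zero_mem
  neg_mem' hv a := (LOs O).neg_mem (hv a)

lemma mem_VO {O : Subring E} {v : ι → LaurentSeries E} : v ∈ VO ι O ↔ ∀ a, v a ∈ LOs O := Iff.rfl

/-- integral matrices. -/
def MO (O : Subring E) (A : Matrix ι ι (LaurentSeries E)) : Prop := ∀ a b, A a b ∈ LOs O

lemma mv_mem {O : Subring E} {A : Matrix ι ι (LaurentSeries E)} (hA : MO O A)
    {v : ι → LaurentSeries E} (hv : v ∈ VO ι O) : mv A v ∈ VO ι O := by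
  intro a
  rw [mv_apply, Matrix.mulVec, dotProduct]
  exact (LOs O).sum_mem (fun b _ => (LOs O).mul_mem (hA a b) (hv b))

lemma nabV_mem {O : Subring E} {v : ι → LaurentSeries E} (hv : v ∈ VO ι O) :
    nabV E ι v ∈ VO ι O := fun a => nab_mem (hv a)

lemma TG_mem {O : Subring E} {G : Matrix ι ι (LaurentSeries E)} (hG : MO O G)
    {v : ι → LaurentSeries E} (hv : v ∈ VO ι O) : TG G v ∈ VO ι O :=
  (VO ι O).add_mem (nabV_mem hv) (mv_mem hG hv)

lemma smul_mem_VO {O : Subring E} {a : E} (ha : a ∈ O) {v : ι → LaurentSeries E}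
    (hv : v ∈ VO ι O) : a • v ∈ VO ι O := fun b => smul_mem_LOs ha (hv b)

lemma nabV_mv (A : Matrix ι ι (LaurentSeries E)) (v : ι → LaurentSeries E) :
    nabV E ι (mv A v) = mv (A.map nab) v + mv A (nabV E ι v) := by
  funext a
  rw [nabV_apply, Pi.add_apply, mv_apply, mv_apply, mv_apply, Matrix.mulVec, Matrix.mulVec,
    Matrix.mulVec, dotProduct, dotProduct, dotProduct, map_sum, ← Finset.sum_add_distrib]
  refine Finset.sum_congr rfl (fun b _ => ?_)
  rw [nab_mul, nabV_apply, Matrix.map_apply]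

lemma mv_mul (A B : Matrix ι ι (LaurentSeries E)) (v : ι → LaurentSeries E) :
    mv (A * B) v = mv A (mv B v) := by
  rw [mv_apply, mv_apply, mv_apply, Matrix.mulVec_mulVec]

lemma mv_add (A B : Matrix ι ι (LaurentSeries E)) (v : ι → LaurentSeries E) :
    mv (A + B) v = mv A v + mv B v := by
  rw [mv_apply, mv_apply, mv_apply, Matrix.add_mulVec]

lemma mv_smul (a : E) (A : Matrix ι ι (LaurentSeries E)) (v : ι → LaurentSeries E) :
    mv (a • A) v = a • mv A v := by
  funext i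
  rw [mv_apply, mv_apply, Pi.smul_apply, Matrix.mulVec, Matrix.mulVec, dotProduct, dotProduct,
    Finset.smul_sum]
  refine Finset.sum_congr rfl (fun j _ => ?_)
  rw [Matrix.smul_apply, ← HahnSeries.single_zero_mul_eq_smul,
    ← HahnSeries.single_zero_mul_eq_smul]
  ring

lemma mv_one (v : ι → LaurentSeries E) : mv (1 : Matrix ι ι (LaurentSeries E)) v = v := by
  rw [mv_apply, Matrix.one_mulVec]

/-- `f ↦ x ^ m f (x ^ p)` on vectors. -/
noncomputable def ioV (ι : Type*) (p : ℕ) (hp : 0 < p) (m : ℕ) :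
    Module.End E (ι → LaurentSeries E) := (io p hp m).compLeft ι

lemma ioV_apply (p : ℕ) (hp : 0 < p) (m : ℕ) (v : ι → LaurentSeries E) (a : ι) :
    ioV ι p hp m v a = io p hp m (v a) := rfl

variable [CharZero E]

/-- Lemma BIN for Laurent series. -/
theorem binLaur (p : ℕ) (hp : p.Prime) (O : Subring E)
    (hinv : ∀ d : ℕ, ¬ p ∣ d → ((d : E))⁻¹ ∈ O) (phi : E →+* E) (hphi : ∀ x ∈ O, phi x ∈ O)
    (G Phi Psi R1 R2 : Matrix ι ι (LaurentSeries E)) (hG : MO O G) (hPhi : MO O Phi)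
    (hPsi : MO O Psi) (hR1 : MO O R1) (hR2 : MO O R2) (n M : ℕ)
    (h1 : Phi.map nab + G * Phi = (p : E) • (Phi * G.map (phL phi p hp.pos)) + (p : E) ^ M • R1)
    (h2 : (p : E) ^ n • (1 : Matrix ι ι (LaurentSeries E)) = Phi * Psi + (p : E) ^ M • R2)
    (j : ℕ) (hj : j < p ^ 2) (hjM : j / p ≤ M) :
    ∀ v ∈ VO ι O, (p : E) ^ n • aeval (TG G) (bp E j) v ∈ VO ι O := by
  have hpO : (p : E) ∈ O := natCast_mem O p
  set Gs : Matrix ι ι (LaurentSeries E) := G.map (mapL phi) with hGs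
  have hGsO : MO O Gs := fun a b => mapL_mem phi hphi (hG a b)
  have hGphi : G.map (phL phi p hp.pos) = Gs.map (sbs p hp.pos) := by
    ext1 a b; rfl
  set Tphi : Module.End E (ι → LaurentSeries E) :=
    nabV E ι + (p : E) • mv (G.map (phL phi p hp.pos)) with hTphi
  have hGpO : MO O (G.map (phL phi p hp.pos)) := by
    rw [hGphi]
    exact fun a b => sbs_mem p hp.pos (hGsO a b)
  refine binAbs p hp O (VO ι O) (fun x hx v hv => smul_mem_VO hx hv) hinv (TG G) Tphi (mv Phi)
    (mv Psi) (TG Gs) (fun m => ioV ι p hp.pos m) n M (fun v hv => TG_mem hG hv) ?_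
    (fun v hv => mv_mem hPhi hv) (fun v hv => mv_mem hPsi hv) (fun v hv => TG_mem hGsO hv)
    (fun m _ v hv a => io_mem p hp.pos m (hv a)) ?_ ?_ ?_ ?_ j hj hjM
  · intro v hv
    rw [hTphi, LinearMap.add_apply, LinearMap.smul_apply]
    exact (VO ι O).add_mem (nabV_mem hv) (smul_mem_VO hpO (mv_mem hGpO hv))
  · intro v hv
    refine ⟨mv R1 v, mv_mem hR1 hv, ?_⟩
    rw [hTphi, TG, LinearMap.add_apply, LinearMap.add_apply, LinearMap.smul_apply, nabV_mv,
      map_add, map_smul, ← mv_mul, ← mv_mul]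
    have h := congrArg (fun A => mv A v) h1
    simp only [mv_add, mv_smul] at h
    rw [add_right_comm, h]
    abel
  · intro v hv
    refine ⟨mv R2 v, mv_mem hR2 hv, ?_⟩
    have h := congrArg (fun A => mv A v) h2
    simp only [mv_add, mv_smul, mv_one, mv_mul] at h
    exact h
  · intro m hm w
    funext a
    rw [hTphi, LinearMap.add_apply, LinearMap.smul_apply, Pi.add_apply, Pi.smul_apply, nabV_apply,
      ioV_apply, nab_io]
    change _ = io p hp.pos m (((m : E) • w + (p : E) • TG Gs w) a)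
    rw [Pi.add_apply, Pi.smul_apply, Pi.smul_apply, TG, LinearMap.add_apply, Pi.add_apply,
      nabV_apply, smul_add, ← add_assoc, map_add (io p hp.pos m) _ ((p : E) • mv Gs w a),
      map_smul (io p hp.pos m) (p : E) (mv Gs w a)]
    congr 2
    rw [hGphi, mv_apply, mv_apply, Matrix.mulVec, Matrix.mulVec, dotProduct, dotProduct, map_sum]
    refine Finset.sum_congr rfl (fun b _ => ?_)
    rw [Matrix.map_apply, ioV_apply, sbs_mul_io]
  · intro v hv
    refine ⟨fun m a => dec p hp.pos m (v a), fun m a => dec_mem p hp.pos m (hv a), ?_⟩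
    funext a
    rw [Finset.sum_apply]
    exact (sum_io_dec p hp.pos (v a)).symm

/-- Lemma NIL for Laurent series. -/
theorem nilLaur (p : ℕ) (hp : p.Prime) (O : Subring E)
    (hinv : ∀ d : ℕ, ¬ p ∣ d → ((d : E))⁻¹ ∈ O) (phi : E →+* E) (hphi : ∀ x ∈ O, phi x ∈ O)
    (G Phi Psi R1 R2 : Matrix ι ι (LaurentSeries E)) (hG : MO O G) (hPhi : MO O Phi)
    (hPsi : MO O Psi) (hR1 : MO O R1) (hR2 : MO O R2) (n M : ℕ)
    (h1 : Phi.map nab + G * Phi = (p : E) • (Phi * G.map (phL phi p hp.pos)) + (p : E) ^ M • R1)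
    (h2 : (p : E) ^ n • (1 : Matrix ι ι (LaurentSeries E)) = Phi * Psi + (p : E) ^ M • R2)
    (hn : n + 1 < p) (hM : n + 1 ≤ M) :
    ∀ v ∈ VO ι O, ∃ w ∈ VO ι O, ((TG G ^ p - TG G) ^ (n + 1)) v = (p : E) • w := by
  refine nilAbs p hp (VO ι O) (TG G) n hn (fun v hv => TG_mem hG hv) ?_
  refine binLaur p hp O hinv phi hphi G Phi Psi R1 R2 hG hPhi hPsi hR1 hR2 n M h1 h2 _ ?_ ?_
  · rw [sq]; exact Nat.mul_lt_mul_of_pos_left hn hp.pos
  · rw [Nat.mul_div_cancel_left _ hp.pos]; exact hM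

end Pool.Agent.H70.LIM
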