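import Pool.Agent.H70.LIM.RLaur

/-!
BIN, NIL and Lemma R from Frobenius matrices at every precision, with the axioms of a PF field.
-/

namespace Pool.Agent.H70.LIM

open Finset Polynomial Matrix Pool.CM

variable {X : Idx} {E : Type} [Field E] [CharZero E] {A : PF X E} {ι : Type*} [Fintype ι]
  [DecidableEq ι]

/-- Frobenius matrices modulo `p ^ M` at the place `i`, integral. -/
def Frob (A : PF X E) (i : X.I) (n M : ℕ) (G Phi Psi : Matrix ι ι (LaurentSeries E)) : Prop :=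
  MO (A.O i) Phi ∧ MO (A.O i) Psi ∧
  (∃ R, MO (A.O i) R ∧ Phi.map nab + G * Phi =
    ((X.p i : ℕ) : E) • (Phi * G.map (phL (A.phi i) (X.p i) (X.hp i).pos)) +
      ((X.p i : ℕ) : E) ^ M • R) ∧
  (∃ R, MO (A.O i) R ∧ ((X.p i : ℕ) : E) ^ n • (1 : Matrix ι ι (LaurentSeries E)) =
    Phi * Psi + ((X.p i : ℕ) : E) ^ M • R)

omit [CharZero E] in
lemma inv_nat_mem (hA : A.Ax) (i : X.I) (d : ℕ) (hd : ¬ X.p i ∣ d) : ((d : E))⁻¹ ∈ A.O i :=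
  hA.pol_O i 0 _ (hA.pol_inv i d hd)

theorem binPF (hA : A.Ax) (G : Matrix ι ι (LaurentSeries E)) (n : ℕ)
    (hG : X.Ev fun i => MO (A.O i) G)
    (hF : ∀ M, X.Ev fun i => ∃ Phi Psi, Frob A i n M G Phi Psi) :
    ∀ C : ℕ, X.Ev fun i => ∀ j ≤ X.p i * C, ∀ v ∈ VO ι (A.O i),
      ((X.p i : ℕ) : E) ^ n • aeval (TG G) (bp E j) v ∈ VO ι (A.O i) := by
  intro C
  refine ((hG.and (hF C)).and (Idx.Ev.large C)).mono ?_
  rintro i ⟨⟨hGi, Phi, Psi, hPhi, hPsi, ⟨R1, hR1, h1⟩, ⟨R2, hR2, h2⟩⟩, hC⟩ j hj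
  refine binLaur (X.p i) (X.hp i) (A.O i) (inv_nat_mem hA i) (A.phi i) (hA.phi_O i) G Phi Psi R1 R2
    hGi hPhi hPsi hR1 hR2 n C h1 h2 j ?_ ?_
  · calc j ≤ X.p i * C := hj
      _ < X.p i * X.p i := Nat.mul_lt_mul_of_pos_left hC (X.hp i).pos
      _ = X.p i ^ 2 := (sq _).symm
  · exact Nat.div_le_of_le_mul hj

theorem nilPF (hA : A.Ax) (G : Matrix ι ι (LaurentSeries E)) (n : ℕ)
    (hG : X.Ev fun i => MO (A.O i) G)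
    (hF : ∀ M, X.Ev fun i => ∃ Phi Psi, Frob A i n M G Phi Psi) :
    X.Ev fun i => ∀ v ∈ VO ι (A.O i), ∃ w ∈ VO ι (A.O i),
      ((TG G ^ X.p i - TG G) ^ (n + 1)) v = ((X.p i : ℕ) : E) • w := by
  refine ((hG.and (hF (n + 1))).and (Idx.Ev.large (n + 1))).mono ?_
  rintro i ⟨⟨hGi, Phi, Psi, hPhi, hPsi, ⟨R1, hR1, h1⟩, ⟨R2, hR2, h2⟩⟩, hC⟩
  exact nilLaur (X.p i) (X.hp i) (A.O i) (inv_nat_mem hA i) (A.phi i) (hA.phi_O i) G Phi Psi R1 R2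
    hGi hPhi hPsi hR1 hR2 n (n + 1) h1 h2 hC le_rfl

/-- Lemma R from Frobenius matrices. -/
theorem lemRPF (hA : A.Ax) (G : Matrix ι ι (LaurentSeries E)) (hReg : Reg G) (n r : ℕ)
    (hchi : ∀ k : ℕ, 1 ≤ k → (cst G).charpoly.eval (k : E) ≠ 0)
    (hG : X.Ev fun i => MO (A.O i) G)
    (hF : ∀ M, X.Ev fun i => ∃ Phi Psi, Frob A i n M G Phi Psi) :
    ∃ c : ℕ, ∀ C : ℕ, X.Ev fun i => ∀ (M : ℕ) (m : ι → LaurentSeries E),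
      m ∈ Lf E ι (-((X.p i * C : ℕ) : ℤ)) →
      (∃ w ∈ VO ι (A.O i), ∃ l ∈ Lf E ι 0, (TG G ^ r) m = ((X.p i : ℕ) : E) ^ M • w + l) →
      ∃ w ∈ VO ι (A.O i), ∃ l ∈ Lf E ι 0,
        ((X.p i : ℕ) : E) ^ c • m = ((X.p i : ℕ) : E) ^ M • w + l :=
  lemR hA G hReg n r hchi (binPF hA G n hG hF)

end Pool.Agent.H70.LIM
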