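import Mathlib

/-!
Laurent series: the operator `nab = x d/dx`, the maps `io m : f ↦ x ^ m f (x ^ p)`, series with
coefficients in a subring, the induced Frobenius `phL`.
-/

namespace Pool.Agent.H70.LIM

open Finset

variable {E : Type*} [Field E]

/-- `x d/dx` on Laurent series. -/
noncomputable def nab : LaurentSeries E →ₗ[E] LaurentSeries E where
  toFun f := ⟨fun k => (k : E) * f.coeff k, f.isPWO_support.mono (by
    intro k hk
    simp only [Function.mem_support] at hk
    intro h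
    exact hk (by rw [h, mul_zero]))⟩
  map_add' f g := by
    ext k
    simp [mul_add]
  map_smul' a f := by
    ext k
    simp [mul_left_comm]

@[simp] lemma nab_coeff (f : LaurentSeries E) (k : ℤ) : (nab f).coeff k = (k : E) * f.coeff k := rfl

lemma nab_mul (f g : LaurentSeries E) : nab (f * g) = nab f * g + f * nab g := by
  ext k
  rw [nab_coeff, HahnSeries.coeff_add, HahnSeries.coeff_mul,
    HahnSeries.coeff_mul_left' (x := nab f) (s := f.support) f.isPWO_support,
    HahnSeries.coeff_mul_right' (y := nab g) (s := g.support) g.isPWO_support,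
    Finset.mul_sum, ← Finset.sum_add_distrib]
  · refine Finset.sum_congr rfl (fun ij hij => ?_)
    rw [nab_coeff, nab_coeff]
    have h : ij.1 + ij.2 = k := (Finset.mem_antidiagonal.mp hij).2.2
    rw [← h]
    push_cast
    ring
  · intro j hj
    simp only [HahnSeries.mem_support, nab_coeff] at hj ⊢
    intro h
    exact hj (by rw [h, mul_zero])
  · intro j hj
    simp only [HahnSeries.mem_support, nab_coeff] at hj ⊢
    intro h
    exact hj (by rw [h, mul_zero])

/-- series with coefficients in a subring. -/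
def LOs (O : Subring E) : Subring (LaurentSeries E) where
  carrier := {f | ∀ k, f.coeff k ∈ O}
  mul_mem' := by
    intro f g hf hg k
    rw [HahnSeries.coeff_mul]
    exact O.sum_mem (fun ij _ => O.mul_mem (hf _) (hg _))
  one_mem' := by
    intro k
    rw [HahnSeries.coeff_one]
    split_ifs
    · exact O.one_mem
    · exact O.zero_mem
  add_mem' := by
    intro f g hf hg k
    rw [HahnSeries.coeff_add]
    exact O.add_mem (hf k) (hg k)
  zero_mem' := by
    intro k
    rw [HahnSeries.coeff_zero]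
    exact O.zero_mem
  neg_mem' := by
    intro f hf k
    rw [HahnSeries.coeff_neg]
    exact O.neg_mem (hf k)

lemma mem_LOs {O : Subring E} {f : LaurentSeries E} : f ∈ LOs O ↔ ∀ k, f.coeff k ∈ O := Iff.rfl

lemma nab_mem {O : Subring E} {f : LaurentSeries E} (hf : f ∈ LOs O) : nab f ∈ LOs O := by
  intro k
  rw [nab_coeff]
  exact O.mul_mem (intCast_mem O k) (hf k)

lemma smul_mem_LOs {O : Subring E} {a : E} (ha : a ∈ O) {f : LaurentSeries E} (hf : f ∈ LOs O) :
    a • f ∈ LOs O := by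
  intro k
  rw [HahnSeries.coeff_smul]
  exact O.mul_mem ha (hf k)

/-- the substitution `x ↦ x ^ p`. -/
noncomputable def sbs (p : ℕ) (hp : 0 < p) : LaurentSeries E →+* LaurentSeries E :=
  HahnSeries.embDomainRingHom (AddMonoidHom.mulLeft (p : ℤ))
    (fun a b h => by
      have hp' : (p : ℤ) ≠ 0 := by exact_mod_cast hp.ne'
      exact mul_left_cancel₀ hp' h)
    (fun a b => by
      have hp' : (0 : ℤ) < p := by exact_mod_cast hp
      exact mul_le_mul_iff_right₀ hp')

lemma sbs_coeff_mul (p : ℕ) (hp : 0 < p) (f : LaurentSeries E) (k : ℤ) :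
    (sbs p hp f).coeff ((p : ℤ) * k) = f.coeff k := by
  rw [sbs, HahnSeries.embDomainRingHom_apply]
  exact HahnSeries.embDomain_coeff (a := k)

lemma sbs_coeff_not (p : ℕ) (hp : 0 < p) (f : LaurentSeries E) (k : ℤ) (hk : ¬ (p : ℤ) ∣ k) :
    (sbs p hp f).coeff k = 0 := by
  rw [sbs, HahnSeries.embDomainRingHom_apply]
  refine HahnSeries.embDomain_of_notMem_range ?_
  rintro ⟨a, ha⟩
  exact hk ⟨a, ha.symm⟩


/-- the map on Laurent series induced by a ring homomorphism of the coefficients. -/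
noncomputable def mapL (phi : E →+* E) : LaurentSeries E →+* LaurentSeries E where
  toFun f := f.map phi
  map_one' := by
    ext k
    rw [HahnSeries.map_coeff, HahnSeries.coeff_one]
    split_ifs <;> simp
  map_mul' f g := HahnSeries.map_mul (phi : E →ₙ+* E)
  map_zero' := by
    ext k
    rw [HahnSeries.map_coeff, HahnSeries.coeff_zero, map_zero]
  map_add' f g := by
    ext k
    rw [HahnSeries.map_coeff, HahnSeries.coeff_add, map_add, HahnSeries.coeff_add]
    simp

@[simp] lemma mapL_coeff (phi : E →+* E) (f : LaurentSeries E) (k : ℤ) :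
    (mapL phi f).coeff k = phi (f.coeff k) := rfl

/-- the Frobenius of Laurent series: coefficients by `phi`, `x ↦ x ^ p`. -/
noncomputable def phL (phi : E →+* E) (p : ℕ) (hp : 0 < p) :
    LaurentSeries E →+* LaurentSeries E := (sbs p hp).comp (mapL phi)

lemma phL_coeff_mul (phi : E →+* E) (p : ℕ) (hp : 0 < p) (f : LaurentSeries E) (k : ℤ) :
    (phL phi p hp f).coeff ((p : ℤ) * k) = phi (f.coeff k) := by
  rw [phL, RingHom.comp_apply, sbs_coeff_mul, mapL_coeff]

lemma phL_coeff_not (phi : E →+* E) (p : ℕ) (hp : 0 < p) (f : LaurentSeries E) (k : ℤ)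
    (hk : ¬ (p : ℤ) ∣ k) : (phL phi p hp f).coeff k = 0 := by
  rw [phL, RingHom.comp_apply, sbs_coeff_not _ _ _ _ hk]

lemma sbs_smul (p : ℕ) (hp : 0 < p) (a : E) (f : LaurentSeries E) :
    sbs p hp (a • f) = a • sbs p hp f := by
  ext k
  by_cases hk : (p : ℤ) ∣ k
  · obtain ⟨c, rfl⟩ := hk
    rw [sbs_coeff_mul, HahnSeries.coeff_smul, HahnSeries.coeff_smul, sbs_coeff_mul]
  · rw [sbs_coeff_not _ _ _ _ hk, HahnSeries.coeff_smul, sbs_coeff_not _ _ _ _ hk, smul_zero]

/-- `f ↦ x ^ m f (x ^ p)`. -/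
noncomputable def io (p : ℕ) (hp : 0 < p) (m : ℕ) : LaurentSeries E →ₗ[E] LaurentSeries E where
  toFun f := HahnSeries.single (m : ℤ) (1 : E) * sbs p hp f
  map_add' f g := by rw [map_add, mul_add]
  map_smul' a f := by
    rw [sbs_smul, RingHom.id_apply, ← HahnSeries.single_zero_mul_eq_smul,
      ← HahnSeries.single_zero_mul_eq_smul]
    ring

lemma io_apply (p : ℕ) (hp : 0 < p) (m : ℕ) (f : LaurentSeries E) :
    io p hp m f = HahnSeries.single (m : ℤ) (1 : E) * sbs p hp f := rfl

lemma io_coeff (p : ℕ) (hp : 0 < p) (m : ℕ) (f : LaurentSeries E) (k : ℤ) :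
    (io p hp m f).coeff k = (sbs p hp f).coeff (k - m) := by
  rw [io_apply, HahnSeries.coeff_single_mul, one_mul]

lemma io_coeff_mul (p : ℕ) (hp : 0 < p) (m : ℕ) (f : LaurentSeries E) (k : ℤ) :
    (io p hp m f).coeff ((p : ℤ) * k + m) = f.coeff k := by
  rw [io_coeff, add_sub_cancel_right, sbs_coeff_mul]

lemma io_coeff_not (p : ℕ) (hp : 0 < p) (m : ℕ) (f : LaurentSeries E) (k : ℤ)
    (hk : ¬ (p : ℤ) ∣ k - m) : (io p hp m f).coeff k = 0 := by
  rw [io_coeff, sbs_coeff_not _ _ _ _ hk]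

lemma nab_io (p : ℕ) (hp : 0 < p) (m : ℕ) (f : LaurentSeries E) :
    nab (io p hp m f) = io p hp m ((m : E) • f + (p : E) • nab f) := by
  ext k
  by_cases hk : (p : ℤ) ∣ k - m
  · obtain ⟨c, hc⟩ := hk
    obtain rfl : k = (p : ℤ) * c + m := by linarith
    rw [nab_coeff, io_coeff_mul, io_coeff_mul, HahnSeries.coeff_add, HahnSeries.coeff_smul,
      HahnSeries.coeff_smul, nab_coeff]
    push_cast
    simp only [smul_eq_mul]
    ring
  · rw [nab_coeff, io_coeff_not _ _ _ _ _ hk, io_coeff_not _ _ _ _ _ hk, mul_zero]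

lemma sbs_mul_io (p : ℕ) (hp : 0 < p) (m : ℕ) (f g : LaurentSeries E) :
    sbs p hp f * io p hp m g = io p hp m (f * g) := by
  rw [io_apply, io_apply, map_mul]
  ring

lemma sbs_mem (p : ℕ) (hp : 0 < p) {O : Subring E} {f : LaurentSeries E} (hf : f ∈ LOs O) :
    sbs p hp f ∈ LOs O := by
  intro k
  by_cases hk : (p : ℤ) ∣ k
  · obtain ⟨c, rfl⟩ := hk
    rw [sbs_coeff_mul]
    exact hf c
  · rw [sbs_coeff_not _ _ _ _ hk]
    exact O.zero_mem

lemma io_mem (p : ℕ) (hp : 0 < p) (m : ℕ) {O : Subring E} {f : LaurentSeries E}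
    (hf : f ∈ LOs O) : io p hp m f ∈ LOs O := by
  intro k
  rw [io_coeff]
  exact sbs_mem p hp hf _

lemma mapL_mem {O : Subring E} (phi : E →+* E) (hphi : ∀ x ∈ O, phi x ∈ O)
    {f : LaurentSeries E} (hf : f ∈ LOs O) : mapL phi f ∈ LOs O := by
  intro k
  rw [mapL_coeff]
  exact hphi _ (hf k)

/-- extraction of the coefficients in a residue class. -/
noncomputable def dec (p : ℕ) (hp : 0 < p) (m : ℕ) (f : LaurentSeries E) : LaurentSeries E :=
  HahnSeries.ofSuppBddBelow (fun k => f.coeff ((p : ℤ) * k + m)) (by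
    have hp' : (0 : ℤ) < p := by exact_mod_cast hp
    refine ⟨-(|f.order| + m), ?_⟩
    intro k hk
    by_contra hlt
    push Not at hlt
    apply hk
    refine HahnSeries.coeff_eq_zero_of_lt_order ?_
    have h1 : (0 : ℤ) ≤ m := by positivity
    have h2 := neg_abs_le f.order
    have h3 : k < 0 := by have := abs_nonneg f.order; linarith
    have h4 : (p : ℤ) * k ≤ k := by nlinarith
    linarith)

lemma dec_coeff (p : ℕ) (hp : 0 < p) (m : ℕ) (f : LaurentSeries E) (k : ℤ) :
    (dec p hp m f).coeff k = f.coeff ((p : ℤ) * k + m) := rfl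

lemma dec_mem (p : ℕ) (hp : 0 < p) (m : ℕ) {O : Subring E} {f : LaurentSeries E}
    (hf : f ∈ LOs O) : dec p hp m f ∈ LOs O := fun _ => hf _

lemma sum_io_dec (p : ℕ) (hp : 0 < p) (f : LaurentSeries E) :
    ∑ m ∈ range p, io p hp m (dec p hp m f) = f := by
  ext k
  have hp' : (0 : ℤ) < p := by exact_mod_cast hp
  have hpne : (p : ℤ) ≠ 0 := ne_of_gt hp'
  rw [HahnSeries.coeff_sum]
  obtain ⟨q, m0, hm0, rfl⟩ : ∃ q : ℤ, ∃ m0 : ℕ, m0 < p ∧ k = (p : ℤ) * q + m0 := by
    have h0 := Int.emod_nonneg k hpne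
    have h1 := Int.emod_lt_of_pos k hp'
    refine ⟨k / p, (k % p).toNat, by omega, ?_⟩
    rw [Int.toNat_of_nonneg h0]
    have := Int.emod_add_mul_ediv k p
    linarith
  rw [Finset.sum_eq_single m0]
  · rw [io_coeff_mul, dec_coeff]
  · intro b hb hne
    refine io_coeff_not _ _ _ _ _ ?_
    intro hd
    apply hne
    have hb' : b < p := Finset.mem_range.mp hb
    have hd' : (p : ℤ) ∣ (m0 : ℤ) - b := by
      have := dvd_sub hd (Dvd.intro q rfl)
      have e : (p : ℤ) * q + m0 - b - p * q = (m0 : ℤ) - b := by ring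
      rwa [e] at this
    have h2 : b ≡ m0 [MOD p] := (Nat.modEq_iff_dvd).mpr hd'
    exact Nat.ModEq.eq_of_lt_of_lt h2 hb' hm0
  · intro hn
    exfalso
    apply hn
    rw [Finset.mem_range]
    exact hm0

end Pool.Agent.H70.LIM
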