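import Pool.Agent.H70.LIM.BinLaur
import Pool.Agent.H80.CM.Poly

/-!
Lemma R (B.8) for Laurent series.
-/

namespace Pool.Agent.H70.LIM

open Finset Polynomial Matrix Pool.CM

variable {E : Type*} [Field E] {ι : Type*} [Fintype ι] [DecidableEq ι]

/-- vectors of Laurent series of order at least `i`. -/
def Lf (E ι : Type*) [Field E] (i : ℤ) : Submodule E (ι → LaurentSeries E) where
  carrier := {v | ∀ a, ∀ k < i, (v a).coeff k = 0}
  add_mem' := by
    intro v w hv hw a k hk
    rw [Pi.add_apply, HahnSeries.coeff_add, hv a k hk, hw a k hk, add_zero]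
  zero_mem' := by
    intro a k _
    rw [Pi.zero_apply, HahnSeries.coeff_zero]
  smul_mem' := by
    intro c v hv a k hk
    rw [Pi.smul_apply, HahnSeries.coeff_smul, hv a k hk, smul_zero]

lemma mem_Lf {i : ℤ} {v : ι → LaurentSeries E} :
    v ∈ Lf E ι i ↔ ∀ a, ∀ k < i, (v a).coeff k = 0 := Iff.rfl

/-- a matrix of Laurent series without pole. -/
def Reg (G : Matrix ι ι (LaurentSeries E)) : Prop := ∀ a b, ∀ k < (0 : ℤ), (G a b).coeff k = 0

/-- the constant term. -/
def cst (G : Matrix ι ι (LaurentSeries E)) : Matrix ι ι E := fun a b => (G a b).coeff 0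

/-- lowest coefficient of a product. -/
lemma coeff_mul_low (f g : LaurentSeries E) (i : ℤ) (hf : ∀ k < (0 : ℤ), f.coeff k = 0)
    (hg : ∀ k < i, g.coeff k = 0) (k : ℤ) (hk : k ≤ i) :
    (f * g).coeff k = f.coeff 0 * g.coeff k := by
  rw [HahnSeries.coeff_mul]
  by_cases h : f.coeff 0 * g.coeff k = 0
  · rw [h]
    refine Finset.sum_eq_zero ?_
    rintro ⟨a, b⟩ hab
    have hab' := Finset.mem_antidiagonal.mp hab
    obtain ⟨_, _, h3⟩ := hab'
    simp only at h3
    by_cases ha : a < 0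
    · rw [hf a ha, zero_mul]
    · by_cases hb : b < i
      · rw [hg b hb, mul_zero]
      · have : a = 0 := by omega
        have hb' : b = k := by omega
        rw [this, hb', h]
  · have h1 : f.coeff 0 ≠ 0 := left_ne_zero_of_mul h
    have h2 : g.coeff k ≠ 0 := right_ne_zero_of_mul h
    rw [Finset.sum_eq_single (0, k)]
    · rintro ⟨a, b⟩ hab hne
      have hab' := Finset.mem_antidiagonal.mp hab
      obtain ⟨_, _, h3⟩ := hab'
      simp only at h3
      by_cases ha : a < 0
      · rw [hf a ha, zero_mul]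
      · by_cases hb : b < i
        · rw [hg b hb, mul_zero]
        · exfalso
          apply hne
          have : a = 0 := by omega
          have hb' : b = k := by omega
          rw [this, hb']
    · intro hn
      exfalso
      apply hn
      rw [Finset.mem_antidiagonal]
      exact ⟨h1, h2, by simp⟩

lemma mv_coeff_low (G : Matrix ι ι (LaurentSeries E)) (hG : Reg G) (i : ℤ)
    {v : ι → LaurentSeries E} (hv : v ∈ Lf E ι i) (a : ι) (k : ℤ) (hk : k ≤ i) :
    (mv G v a).coeff k = (cst G *ᵥ (fun b => (v b).coeff k)) a := by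
  rw [mv_apply, Matrix.mulVec, dotProduct, HahnSeries.coeff_sum, Matrix.mulVec, dotProduct]
  exact Finset.sum_congr rfl (fun b _ => coeff_mul_low _ _ i (hG a b) (hv b) k hk)

lemma TG_coeff_low (G : Matrix ι ι (LaurentSeries E)) (hG : Reg G) (i : ℤ)
    {v : ι → LaurentSeries E} (hv : v ∈ Lf E ι i) (a : ι) (k : ℤ) (hk : k ≤ i) :
    (TG G v a).coeff k = (k : E) * (v a).coeff k + (cst G *ᵥ (fun b => (v b).coeff k)) a := by
  rw [TG, LinearMap.add_apply, Pi.add_apply, HahnSeries.coeff_add, nabV_apply, nab_coeff,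
    mv_coeff_low G hG i hv a k hk]

lemma TG_mem_Lf (G : Matrix ι ι (LaurentSeries E)) (hG : Reg G) (i : ℤ)
    {v : ι → LaurentSeries E} (hv : v ∈ Lf E ι i) : TG G v ∈ Lf E ι i := by
  intro a k hk
  rw [TG_coeff_low G hG i hv a k hk.le, hv a k hk, mul_zero, zero_add]
  rw [Matrix.mulVec, dotProduct]
  exact Finset.sum_eq_zero (fun b _ => by rw [hv b k hk, mul_zero])

lemma mem_of_aeval (G : Matrix ι ι (LaurentSeries E)) (hG : Reg G) (i : ℤ)
    {v : ι → LaurentSeries E} (hv : v ∈ Lf E ι i) (f : E[X]) :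
    aeval (TG G) f v ∈ Lf E ι i ∧ (fun a => (aeval (TG G) f v a).coeff i) =
      (aeval ((i : E) • (1 : Matrix ι ι E) + cst G) f) *ᵥ (fun b => (v b).coeff i) := by
  induction f using Polynomial.induction_on' with
  | add f g hf hg =>
    rw [map_add, map_add, LinearMap.add_apply, Matrix.add_mulVec, ← hf.2, ← hg.2]
    exact ⟨(Lf E ι i).add_mem hf.1 hg.1, rfl⟩
  | monomial n c =>
    rw [Polynomial.aeval_monomial, Polynomial.aeval_monomial, Module.End.mul_apply,
      Module.algebraMap_end_apply]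
    have h : (TG G ^ n) v ∈ Lf E ι i ∧ (fun a => ((TG G ^ n) v a).coeff i) =
        (((i : E) • (1 : Matrix ι ι E) + cst G) ^ n) *ᵥ (fun b => (v b).coeff i) := by
      induction n with
      | zero => exact ⟨by simpa using hv, by simp⟩
      | succ n ih =>
        rw [pow_succ', pow_succ', Module.End.mul_apply]
        refine ⟨TG_mem_Lf G hG i ih.1, ?_⟩
        rw [← Matrix.mulVec_mulVec, ← ih.2]
        funext a
        rw [TG_coeff_low G hG i ih.1 a i le_rfl, Matrix.add_mulVec, Pi.add_apply,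
          Matrix.smul_mulVec, Matrix.one_mulVec, Pi.smul_apply, smul_eq_mul]
    refine ⟨(Lf E ι i).smul_mem _ h.1, ?_⟩
    have e : (fun a => ((c • (TG G ^ n) v) a).coeff i) = c • (fun a => ((TG G ^ n) v a).coeff i) := by
      funext a
      rw [Pi.smul_apply, Pi.smul_apply, HahnSeries.coeff_smul]
    rw [e, h.2, ← Matrix.mulVec_mulVec]
    rw [Algebra.algebraMap_eq_smul_one, Matrix.smul_mulVec, Matrix.one_mulVec]

lemma ch_step (G : Matrix ι ι (LaurentSeries E)) (hG : Reg G) (i : ℤ)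
    {v : ι → LaurentSeries E} (hv : v ∈ Lf E ι i) :
    aeval (TG G) ((cst G).charpoly.comp (X + C (-(i : E)))) v ∈ Lf E ι (i + 1) := by
  obtain ⟨h1, h2⟩ := mem_of_aeval G hG i hv ((cst G).charpoly.comp (X + C (-(i : E))))
  intro a k hk
  rcases lt_or_eq_of_le (Int.lt_add_one_iff.mp hk) with hk' | hk'
  · exact h1 a k hk'
  · have h3 := congrFun h2 a
    rw [hk']
    refine h3.trans ?_
    have h4 : aeval ((i : E) • (1 : Matrix ι ι E) + cst G)
        ((cst G).charpoly.comp (X + C (-(i : E)))) = 0 := by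
      rw [Polynomial.aeval_comp]
      have : aeval ((i : E) • (1 : Matrix ι ι E) + cst G) (X + C (-(i : E))) = cst G := by
        rw [map_add, aeval_X, aeval_C, Algebra.algebraMap_eq_smul_one]
        module
      rw [this, Matrix.aeval_self_charpoly]
    rw [h4, Matrix.zero_mulVec]
    rfl

lemma ch_prod (G : Matrix ι ι (LaurentSeries E)) (hG : Reg G) (k : ℕ) :
    ∀ v ∈ Lf E ι (-(k : ℤ)),
      aeval (TG G) (∏ l ∈ Icc 1 k, (cst G).charpoly.comp (X + C (l : E))) v ∈ Lf E ι 0 := by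
  induction k with
  | zero => intro v hv; simpa using hv
  | succ k ih =>
    intro v hv
    rw [Finset.prod_Icc_succ_top (by omega), map_mul, Module.End.mul_apply]
    refine ih _ ?_
    have := ch_step G hG (-((k + 1 : ℕ) : ℤ)) hv
    have e : (-((k + 1 : ℕ) : ℤ)) + 1 = -(k : ℤ) := by push_cast; ring
    rw [e] at this
    have e2 : (-(((-((k + 1 : ℕ) : ℤ)) : ℤ) : E)) = ((k + 1 : ℕ) : E) := by push_cast; ring
    rw [e2] at this
    exact this


/-- polynomials in `T` preserve a stable subspace. -/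
lemma aeval_mem_sub {V : Type*} [AddCommGroup V] [Module E V] (T : Module.End E V)
    (L0 : Submodule E V) (hT0 : ∀ v ∈ L0, T v ∈ L0) (W : E[X]) (v : V) (hv : v ∈ L0) :
    aeval T W v ∈ L0 := by
  induction W using Polynomial.induction_on' with
  | add f g hf hg =>
    rw [map_add, LinearMap.add_apply]
    exact L0.add_mem hf hg
  | monomial k a =>
    rw [Polynomial.aeval_monomial, Module.End.mul_apply, Module.algebraMap_end_apply]
    refine L0.smul_mem _ ?_
    induction k with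
    | zero => simpa using hv
    | succ k ih =>
      rw [pow_succ', Module.End.mul_apply]
      exact hT0 _ ih

end Pool.Agent.H70.LIM

namespace Pool.Agent.H70.LIM

open Finset Polynomial Matrix Pool.CM

variable {X : Idx} {E : Type} [Field E] [CharZero E] {A : PF X E} {ι : Type*} [Fintype ι]
  [DecidableEq ι]

/-- Lemma R (B.8): the constant `c` depends only on `G`, `n`, `r`. -/
theorem lemR (hA : A.Ax) (G : Matrix ι ι (LaurentSeries E)) (hG : Reg G) (n r : ℕ)
    (hchi : ∀ k : ℕ, 1 ≤ k → (cst G).charpoly.eval (k : E) ≠ 0)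
    (hbin : ∀ C : ℕ, X.Ev fun i => ∀ j ≤ X.p i * C, ∀ v ∈ VO ι (A.O i),
      ((X.p i : ℕ) : E) ^ n • aeval (TG G) (bp E j) v ∈ VO ι (A.O i)) :
    ∃ c : ℕ, ∀ C : ℕ, X.Ev fun i => ∀ (M : ℕ) (m : ι → LaurentSeries E),
      m ∈ Lf E ι (-((X.p i * C : ℕ) : ℤ)) →
      (∃ w ∈ VO ι (A.O i), ∃ l ∈ Lf E ι 0, (TG G ^ r) m = ((X.p i : ℕ) : E) ^ M • w + l) →
      ∃ w ∈ VO ι (A.O i), ∃ l ∈ Lf E ι 0,
        ((X.p i : ℕ) : E) ^ c • m = ((X.p i : ℕ) : E) ^ M • w + l := by
  obtain ⟨c, hc⟩ := Pool.H80.CM.poly hA (cst G).charpoly (Matrix.charpoly_monic _) hchi r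
  refine ⟨c + n, fun C => ?_⟩
  refine ((hc C).and (hbin (r * ((cst G).charpoly.natDegree * C)))).mono ?_
  rintro i ⟨⟨U, W, a, hUW, hW, ha⟩, hb⟩ M m hm ⟨w, hw, l, hl, hTm⟩
  set p : E := ((X.p i : ℕ) : E) with hp
  have hpO : p ∈ A.O i := natCast_mem _ _
  have hT0 : ∀ v ∈ Lf E ι 0, TG G v ∈ Lf E ι 0 := fun v hv => TG_mem_Lf G hG 0 hv
  have hm1 : m = aeval (TG G) U (aeval (TG G)
      (∏ l ∈ Icc 1 (X.p i * C), (cst G).charpoly.comp (Polynomial.X + Polynomial.C (l : E))) m) +
      aeval (TG G) W ((TG G ^ r) m) := by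
    conv_lhs => rw [← Module.End.one_apply (R := E) m, ← map_one (aeval (R := E) (TG G)), ← hUW]
    rw [map_add, LinearMap.add_apply, mul_comm _ U, map_mul, map_mul,
      map_pow (aeval (R := E) (TG G)) Polynomial.X, aeval_X]
    rfl
  have hPm := ch_prod G hG (X.p i * C) m hm
  have hWw : p ^ (c + n) • aeval (TG G) W w ∈ VO ι (A.O i) := by
    rw [hW, map_sum, LinearMap.sum_apply, Finset.smul_sum]
    refine AddSubgroup.sum_mem _ ?_
    intro j hj
    have hj' := Nat.lt_succ_iff.mp (Finset.mem_range.mp hj)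
    have hj2 : j ≤ X.p i * (r * ((cst G).charpoly.natDegree * C)) := by
      refine hj'.trans (le_of_eq ?_)
      ring
    have h1 := hb j hj2 w hw
    have h2 := ha j hj'
    rw [map_mul, aeval_C, Module.End.mul_apply, Module.algebraMap_end_apply, smul_smul, pow_add,
      mul_right_comm, mul_smul]
    exact smul_mem_VO h2 h1
  refine ⟨p ^ (c + n) • aeval (TG G) W w, hWw,
    p ^ (c + n) • (aeval (TG G) U (aeval (TG G) (∏ l ∈ Icc 1 (X.p i * C),
      (cst G).charpoly.comp (Polynomial.X + Polynomial.C (l : E))) m) + aeval (TG G) W l), ?_, ?_⟩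
  · exact (Lf E ι 0).smul_mem _ ((Lf E ι 0).add_mem (aeval_mem_sub _ _ hT0 _ _ hPm)
      (aeval_mem_sub _ _ hT0 _ _ hl))
  · conv_lhs => rw [hm1, hTm]
    rw [map_add, map_smul, smul_add, smul_add, smul_add, smul_comm (p ^ (c + n)) (p ^ M)]
    abel

end Pool.Agent.H70.LIM
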