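import Mathlib

/-!
Lemma VAL: comparison of the values of a monic polynomial over a discrete valuation ring with
uniformiser a prime number `p` on two windows of `p * C` consecutive integers.
-/

namespace Pool.Agent.H70.LIM

open Polynomial Finset

lemma prod_range_mul_eq {M : Type*} [CommMonoid M] (p C : ℕ) (G : ℕ → M) :
    ∏ i ∈ range (p * C), G i = ∏ t ∈ range C, ∏ a ∈ range p, G (p * t + a) := by
  induction C with
  | zero => simp
  | succ C ih => rw [Nat.mul_succ, Finset.prod_range_add, ih, Finset.prod_range_succ]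

lemma prod_shift_residue {M : Type*} [CommMonoid M] (p : ℕ) (hp : 0 < p) (x y : ℤ) (H : ℤ → M) :
    ∃ s : ℕ → ℤ, ∏ b ∈ range p, H (x + b) = ∏ a ∈ range p, H (y + a + p * s a) := by
  have hp' : (0 : ℤ) < p := by exact_mod_cast hp
  have hpne : (p : ℤ) ≠ 0 := ne_of_gt hp'
  refine ⟨fun a => -((y + a - x) / p), ?_⟩
  refine Finset.prod_nbij' (fun b => ((x + b - y) % p).toNat) (fun a => ((y + a - x) % p).toNat)
    ?_ ?_ ?_ ?_ ?_
  · intro b _
    have h1 := Int.emod_lt_of_pos (x + b - y) hp'
    have h0 := Int.emod_nonneg (x + b - y) hpne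
    simp only [Finset.mem_range]; omega
  · intro a _
    have h1 := Int.emod_lt_of_pos (y + a - x) hp'
    have h0 := Int.emod_nonneg (y + a - x) hpne
    simp only [Finset.mem_range]; omega
  · intro b hb
    have hb' := Finset.mem_range.mp hb
    have h0 := Int.emod_nonneg (x + b - y) hpne
    rw [Int.toNat_of_nonneg h0]
    have : (y + (x + b - y) % p - x) % p = (b : ℤ) % p := by
      have e : (y + (x + b - y) % p - x) = b - p * ((x + b - y) / p) := by
        have := Int.emod_add_mul_ediv (x + b - y) p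
        linarith
      rw [e, Int.sub_mul_emod_self_left]
    rw [this, Int.emod_eq_of_lt (by positivity) (by exact_mod_cast hb')]
    simp
  · intro a ha
    have ha' := Finset.mem_range.mp ha
    have h0 := Int.emod_nonneg (y + a - x) hpne
    rw [Int.toNat_of_nonneg h0]
    have : (x + (y + a - x) % p - y) % p = (a : ℤ) % p := by
      have e : (x + (y + a - x) % p - y) = a - p * ((y + a - x) / p) := by
        have := Int.emod_add_mul_ediv (y + a - x) p
        linarith
      rw [e, Int.sub_mul_emod_self_left]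
    rw [this, Int.emod_eq_of_lt (by positivity) (by exact_mod_cast ha')]
    simp
  · intro b hb
    have hb' := Finset.mem_range.mp hb
    have h0 := Int.emod_nonneg (x + b - y) hpne
    simp only
    rw [Int.toNat_of_nonneg h0]
    congr 1
    have e1 : (y + (x + b - y) % p - x) = b - p * ((x + b - y) / p) := by
      have := Int.emod_add_mul_ediv (x + b - y) p
      linarith
    rw [e1]
    have e2 : ((b : ℤ) - p * ((x + b - y) / p)) / p = - ((x + b - y) / p) := by
      rw [Int.sub_mul_ediv_left _ _ hpne, Int.ediv_eq_zero_of_lt (by positivity)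
        (by exact_mod_cast hb')]
      ring
    rw [e2]
    have := Int.emod_add_mul_ediv (x + b - y) p
    linarith


section DVR

open scoped Classical

variable {O : Type*} [CommRing O] [IsDomain O] [IsDiscreteValuationRing O]

lemma isUnit_of_not_dvd {p : O} (hp : Irreducible p) {x : O} (hx : ¬ p ∣ x) : IsUnit x := by
  by_contra h
  apply hx
  have h1 : x ∈ IsLocalRing.maximalIdeal O := (IsLocalRing.mem_maximalIdeal x).mpr h
  rw [hp.maximalIdeal_eq] at h1
  exact Ideal.mem_span_singleton.mp h1

lemma dvd_iff_residue {p : O} (hp : Irreducible p) (x : O) :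
    p ∣ x ↔ IsLocalRing.residue O x = 0 := by
  rw [IsLocalRing.residue_eq_zero_iff, hp.maximalIdeal_eq, Ideal.mem_span_singleton]

/-- at most `N` of fewer than `p` consecutive integers are zeros modulo `p` of a polynomial which
is not divisible by `p`. -/
lemma card_zero_le (p : ℕ) (hp : p.Prime) (hpO : Irreducible (p : O)) (C : ℕ) (hC : C ≤ p)
    (g : O[X]) (hg : ¬ Polynomial.C (p : O) ∣ g) (x : ℤ) :
    ((range C).filter (fun t : ℕ => (p : O) ∣ g.eval ((x + t : ℤ) : O))).card ≤ g.natDegree := by
  set k := IsLocalRing.ResidueField O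
  set gb : k[X] := g.map (IsLocalRing.residue O)
  have hgb : gb ≠ 0 := by
    intro h
    apply hg
    rw [Polynomial.C_dvd_iff_dvd_coeff]
    intro i
    rw [dvd_iff_residue hpO, ← Polynomial.coeff_map]
    change gb.coeff i = 0
    rw [h]; simp
  have : CharP k p := by
    refine (CharP.charP_iff_prime_eq_zero hp).mpr ?_
    have := (dvd_iff_residue hpO (p : O)).mp dvd_rfl
    rw [map_natCast] at this
    exact this
  have hinj : Set.InjOn (fun t : ℕ => ((x + t : ℤ) : k))
      (((range C).filter (fun t : ℕ => (p : O) ∣ g.eval ((x + t : ℤ) : O)) : Finset ℕ) : Set ℕ) := by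
    intro s hs t ht hst
    simp only [Finset.coe_filter, Finset.mem_range, Set.mem_ofPred_eq] at hs ht
    have h1 : ((s : ℤ) : k) = ((t : ℤ) : k) := by
      have := hst
      simp only at this
      push_cast at this ⊢
      exact add_left_cancel this
    rw [CharP.intCast_eq_intCast k p] at h1
    have h2 : s ≡ t [MOD p] := (Int.natCast_modEq_iff).mp h1
    exact Nat.ModEq.eq_of_lt_of_lt h2 (by omega) (by omega)
  calc ((range C).filter (fun t : ℕ => (p : O) ∣ g.eval ((x + t : ℤ) : O))).card
      = (((range C).filter (fun t : ℕ => (p : O) ∣ g.eval ((x + t : ℤ) : O))).image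
          (fun t : ℕ => ((x + t : ℤ) : k))).card := by
        rw [Finset.card_image_of_injOn hinj]
    _ ≤ gb.roots.toFinset.card := by
        apply Finset.card_le_card
        intro y hy
        rw [Finset.mem_image] at hy
        obtain ⟨t, ht, rfl⟩ := hy
        rw [Finset.mem_filter] at ht
        rw [Multiset.mem_toFinset, Polynomial.mem_roots hgb, Polynomial.IsRoot.def]
        have := (dvd_iff_residue hpO _).mp ht.2
        rw [← this, ← Polynomial.eval_map_apply]
        simp [gb]
    _ ≤ Multiset.card gb.roots := Multiset.toFinset_card_le _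
    _ ≤ gb.natDegree := Polynomial.card_roots' _
    _ ≤ g.natDegree := Polynomial.natDegree_map_le


omit [IsDomain O] [IsDiscreteValuationRing O] in
lemma not_dvd_eval_add {p : ℕ} {chi : O[X]} {a : ℤ}
    (ha : ¬ (p : O) ∣ chi.eval (a : O)) (t : ℤ) : ¬ (p : O) ∣ chi.eval ((a + p * t : ℤ) : O) := by
  intro h
  apply ha
  have h1 : ((a + p * t : ℤ) : O) - (a : O) ∣ chi.eval ((a + p * t : ℤ) : O) - chi.eval (a : O) :=
    Polynomial.sub_dvd_eval_sub _ _ _
  have h2 : (p : O) ∣ ((a + p * t : ℤ) : O) - (a : O) := by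
    refine ⟨(t : O), ?_⟩
    push_cast; ring
  have h3 := dvd_trans h2 h1
  have := dvd_sub h h3
  simpa using this

/-- one residue class. -/
lemma class_dvd (p : ℕ) (hp : p.Prime) (hpO : Irreducible (p : O)) (C N c : ℕ) (hC : C ≤ p)
    (chi : O[X]) (hchi : chi.Monic) (hN : chi.natDegree ≤ N) (a s : ℤ)
    (hc : ∀ t : ℕ, t < C → chi.eval ((a + p * t : ℤ) : O) ∣ (p : O) ^ c) :
    ∏ t ∈ range C, chi.eval ((a + p * t : ℤ) : O) ∣
      (if (p : O) ∣ chi.eval (a : O) then (p : O) ^ (N * c) else 1) *
        ∏ t ∈ range C, chi.eval ((a + p * (s + t) : ℤ) : O) := by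
  by_cases ha : (p : O) ∣ chi.eval (a : O)
  swap
  · rw [if_neg ha, one_mul]
    refine (IsUnit.dvd ?_)
    refine Finset.prod_induction _ IsUnit (fun _ _ h1 h2 => h1.mul h2) isUnit_one ?_
    intro t _
    exact isUnit_of_not_dvd hpO (not_dvd_eval_add ha t)
  rw [if_pos ha]
  set h : O[X] := chi.comp (Polynomial.C (a : O) + Polynomial.C (p : O) * X) with hh
  have hp0 : (p : O) ≠ 0 := hpO.ne_zero
  have hdeg : (Polynomial.C (a : O) + Polynomial.C (p : O) * X : O[X]).natDegree = 1 := by
    rw [add_comm]; exact Polynomial.natDegree_linear hp0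
  have hhne : h ≠ 0 := by
    intro h0
    rw [hh, Polynomial.comp_eq_zero_iff] at h0
    rcases h0 with h0 | h0
    · exact hchi.ne_zero h0
    · have := h0.2
      have h1 := congrArg (fun q : O[X] => q.coeff 1) this
      simp at h1
      exact hp0 h1
  have hev : ∀ t : ℤ, h.eval (t : O) = chi.eval ((a + p * t : ℤ) : O) := by
    intro t
    rw [hh, Polynomial.eval_comp]
    congr 1
    simp
  have hCp : Irreducible (Polynomial.C (p : O)) :=
    ((Polynomial.prime_C_iff).mpr hpO.prime).irreducible
  obtain ⟨kap, g, hg, hgk⟩ := WfDvdMonoid.max_power_factor hhne hCp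
  have hgdeg : g.natDegree ≤ N := by
    have e1 : h.natDegree = chi.natDegree := by
      rw [hh, Polynomial.natDegree_comp, hdeg, mul_one]
    have e2 : h.natDegree = g.natDegree := by
      rw [hgk, ← Polynomial.C_pow, Polynomial.natDegree_C_mul (pow_ne_zero _ hp0)]
    omega
  have hval : ∀ t : ℤ, chi.eval ((a + p * t : ℤ) : O) = (p : O) ^ kap * g.eval (t : O) := by
    intro t
    rw [← hev, hgk, ← Polynomial.C_pow]
    simp
  -- left hand side
  have hL : ∏ t ∈ range C, chi.eval ((a + p * t : ℤ) : O) ∣ (p : O) ^ (kap * C) * (p : O) ^ (N * c) := by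
    have e : ∏ t ∈ range C, chi.eval ((a + p * t : ℤ) : O)
        = (p : O) ^ (kap * C) * ∏ t ∈ range C, g.eval ((t : ℤ) : O) := by
      rw [Finset.prod_congr rfl (fun (t : ℕ) _ => hval (t : ℤ)), Finset.prod_mul_distrib,
        Finset.prod_const, Finset.card_range, ← pow_mul]
    rw [e]
    refine mul_dvd_mul_left _ ?_
    have hcard := card_zero_le p hp hpO C hC g hg 0
    calc ∏ t ∈ range C, g.eval ((t : ℤ) : O)
        ∣ ∏ t ∈ range C, (if (p : O) ∣ g.eval (((0 : ℤ) + t : ℤ) : O) then (p : O) ^ c else 1) := by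
          refine Finset.prod_dvd_prod_of_dvd _ _ ?_
          intro t ht
          rw [zero_add]
          split_ifs with h1
          · refine dvd_trans ?_ (hc t (Finset.mem_range.mp ht))
            rw [hval t]
            exact dvd_mul_left _ _
          · exact (isUnit_of_not_dvd hpO h1).dvd
      _ = (p : O) ^ (c * ((range C).filter
            (fun t : ℕ => (p : O) ∣ g.eval (((0 : ℤ) + t : ℤ) : O))).card) := by
          rw [Finset.prod_ite, Finset.prod_const, Finset.prod_const_one, mul_one, ← pow_mul]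
      _ ∣ (p : O) ^ (N * c) := by
          refine pow_dvd_pow _ ?_
          rw [mul_comm N c]
          exact Nat.mul_le_mul_left _ (hcard.trans hgdeg)
  refine dvd_trans hL ?_
  rw [mul_comm]
  refine mul_dvd_mul_left _ ?_
  rw [Finset.prod_congr rfl (fun (t : ℕ) _ => hval (s + t)), Finset.prod_mul_distrib,
    Finset.prod_const, Finset.card_range, ← pow_mul]
  exact dvd_mul_right _ _

/-- VAL. -/
theorem val (p : ℕ) (hp : p.Prime) (hpO : Irreducible (p : O)) (C N c : ℕ) (hC : C ≤ p)
    (chi : O[X]) (hchi : chi.Monic) (hN : chi.natDegree ≤ N)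
    (hc : ∀ i : ℕ, i < p * C → chi.eval ((1 + i : ℤ) : O) ∣ (p : O) ^ c) (x : ℤ) :
    ∏ i ∈ range (p * C), chi.eval ((1 + i : ℤ) : O) ∣
      (p : O) ^ (N * N * c) * ∏ i ∈ range (p * C), chi.eval ((x + i : ℤ) : O) := by
  obtain ⟨s, hs⟩ : ∃ s : ℕ → ℤ, ∏ i ∈ range (p * C), chi.eval ((x + i : ℤ) : O) =
      ∏ a ∈ range p, ∏ t ∈ range C, chi.eval (((1 + a : ℤ) + p * (s a + t) : ℤ) : O) := by
    obtain ⟨s, hs⟩ := prod_shift_residue p hp.pos x 1
      (fun b => ∏ t ∈ range C, chi.eval ((b + p * t : ℤ) : O))
    refine ⟨s, ?_⟩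
    rw [prod_range_mul_eq p C (fun i : ℕ => chi.eval ((x + i : ℤ) : O)), Finset.prod_comm]
    calc ∏ a ∈ range p, ∏ t ∈ range C, chi.eval ((x + ((p * t + a : ℕ) : ℤ) : ℤ) : O)
        = ∏ b ∈ range p, ∏ t ∈ range C, chi.eval (((x + b) + p * t : ℤ) : O) := by
          refine Finset.prod_congr rfl (fun a _ => Finset.prod_congr rfl (fun t _ => ?_))
          congr 2
          push_cast; ring
      _ = _ := by
          rw [hs]
          refine Finset.prod_congr rfl (fun a _ => Finset.prod_congr rfl (fun t _ => ?_))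
          congr 2
          ring
  have hl : ∏ i ∈ range (p * C), chi.eval ((1 + i : ℤ) : O) =
      ∏ a ∈ range p, ∏ t ∈ range C, chi.eval (((1 + a : ℤ) + p * t : ℤ) : O) := by
    rw [prod_range_mul_eq p C (fun i : ℕ => chi.eval ((1 + i : ℤ) : O)), Finset.prod_comm]
    refine Finset.prod_congr rfl (fun a _ => Finset.prod_congr rfl (fun t _ => ?_))
    congr 2
    push_cast; ring
  rw [hs, hl]
  calc ∏ a ∈ range p, ∏ t ∈ range C, chi.eval (((1 + a : ℤ) + p * t : ℤ) : O)
      ∣ ∏ a ∈ range p, ((if (p : O) ∣ chi.eval ((1 + a : ℤ) : O) then (p : O) ^ (N * c) else 1) *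
        ∏ t ∈ range C, chi.eval (((1 + a : ℤ) + p * (s a + t) : ℤ) : O)) := by
        refine Finset.prod_dvd_prod_of_dvd _ _ ?_
        intro a ha
        refine class_dvd p hp hpO C N c hC chi hchi hN (1 + a) (s a) ?_
        intro t ht
        have := hc (p * t + a) ?_
        · convert this using 3
          push_cast; ring
        · have ha' := Finset.mem_range.mp ha
          calc p * t + a < p * t + p := by omega
            _ = p * (t + 1) := by ring
            _ ≤ p * C := Nat.mul_le_mul_left _ ht
    _ = (∏ a ∈ range p, (if (p : O) ∣ chi.eval ((1 + a : ℤ) : O) then (p : O) ^ (N * c) else 1)) *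
        ∏ a ∈ range p, ∏ t ∈ range C, chi.eval (((1 + a : ℤ) + p * (s a + t) : ℤ) : O) := by
        rw [Finset.prod_mul_distrib]
    _ ∣ _ := by
        refine mul_dvd_mul_right ?_ _
        rw [Finset.prod_ite, Finset.prod_const, Finset.prod_const_one, mul_one, ← pow_mul]
        refine pow_dvd_pow _ ?_
        have hnd : ¬ Polynomial.C (p : O) ∣ chi := by
          intro h
          rw [Polynomial.C_dvd_iff_dvd_coeff] at h
          have h1 := h chi.natDegree
          rw [hchi.coeff_natDegree] at h1
          exact hpO.not_isUnit (isUnit_of_dvd_one h1)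
        have := card_zero_le p hp hpO p le_rfl chi hnd 1
        calc N * c * _ ≤ N * c * N := Nat.mul_le_mul_left _ (this.trans hN)
          _ = N * N * c := by ring

end DVR

end Pool.Agent.H70.LIM
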